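import Pool.Statements.S00345
import Pool.Agent.Lib.MP_a18d4e_ag.Main

set_option autoImplicit false
open Pool Pool.MP_a18d4e_ag

namespace Pool.Agent.S00345

/-- For every tensor format with factor dimensions n_i+1, some real tensor has exactly c(n) complex singular tuples up to scaling each factor, and all of them are real. -/
theorem result :
    ∀ (d : ℕ) (n : Fin d → ℕ),
      ∃ (T : (∀ i : Fin d, Fin (n i + 1)) → ℝ) (N : ℕ)
        (r : Fin N → ∀ i : Fin d, Fin (n i + 1) → ℝ),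
        (N : ℤ) = MvPolynomial.coeff (Finsupp.equivFunOnFinite.symm n)
          (∏ k : Fin d, ∑ j ∈ Finset.range (n k + 1),
            (∑ i ∈ Finset.univ.erase k, (MvPolynomial.X i : MvPolynomial (Fin d) ℤ)) ^ j
              * (MvPolynomial.X k : MvPolynomial (Fin d) ℤ) ^ (n k - j)) ∧
        (∀ x : ∀ i : Fin d, Fin (n i + 1) → ℂ,
          ((∀ k : Fin d, x k ≠ 0) ∧
            ∀ k : Fin d, ∃ l : ℂ, ∀ j : Fin (n k + 1),
              ∑ ι : (∀ i : Fin d, Fin (n i + 1)),
                (if ι k = j then (T ι : ℂ) * ∏ i ∈ Finset.univ.erase k, x i (ι i) else 0)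
                = l * x k j)
          ↔ ∃ m : Fin N, ∀ k : Fin d, ∃ c : ℂ, c ≠ 0 ∧
              ∀ j : Fin (n k + 1), x k j = c * (r m k j : ℂ)) ∧
        (∀ m m' : Fin N,
          (∀ k : Fin d, ∃ c : ℂ, c ≠ 0 ∧
              ∀ j : Fin (n k + 1), (r m' k j : ℂ) = c * (r m k j : ℂ)) → m = m') := by
  intro d n
  rcases Nat.eq_zero_or_pos d with rfl | hD
  · refine ⟨fun _ => 0, 1, fun _ i => i.elim0, ?_, fun x => ?_,
      fun m m' _ => Subsingleton.elim _ _⟩
    · rw [Subsingleton.elim (Finsupp.equivFunOnFinite.symm n) 0]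
      simp
    · simp
  obtain ⟨t, X, h1, h2⟩ := Pool.Agent.Lib.MP_a18d4e_ag.main_words hD n
  let e := (Finset.equivFin ((Finset.Icc 0 n).sigma fun k =>
    Pool.Agent.Lib.MP_a18d4e_ag.goods 0 k 1 0 0)).symm
  refine ⟨fun ι => t ^ Pool.Agent.Lib.MP_a18d4e_ag.om n (fun r => ι r), _,
    fun m k j => X (e m) k j, Pool.Agent.Lib.MP_a18d4e_ag.total_count hD n, fun x => ?_,
    fun m m' h => e.injective (h2 _ _ fun r => ?_)⟩
  · have a1 : ((∀ k : Fin d, x k ≠ 0) ∧
        ∀ k : Fin d, ∃ l : ℂ, ∀ j : Fin (n k + 1),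
          ∑ ι : (∀ i : Fin d, Fin (n i + 1)),
            (if ι k = j then ((t ^ Pool.Agent.Lib.MP_a18d4e_ag.om n (fun r => ι r) : ℝ) : ℂ) *
              ∏ i ∈ Finset.univ.erase k, x i (ι i) else 0) = l * x k j) ↔
        Pool.Agent.Lib.MP_a18d4e_ag.Sol n t (Pool.Agent.Lib.MP_a18d4e_ag.ext x) := by
      refine and_congr (forall_congr' fun k => ?_) (forall_congr' fun k =>
        exists_congr fun l => ?_)
      · constructor
        · intro h
          obtain ⟨j, hj⟩ := Function.ne_iff.1 h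
          exact ⟨j, Nat.le_of_lt_succ j.2, by
            rwa [Pool.Agent.Lib.MP_a18d4e_ag.ext_val]⟩
        · rintro ⟨j, hj, h⟩ h0
          apply h
          simp [Pool.Agent.Lib.MP_a18d4e_ag.ext, h0]
      · push_cast
        simp only [Pool.Agent.Lib.MP_a18d4e_ag.sum_words n
          (fun ι => (t : ℂ) ^ Pool.Agent.Lib.MP_a18d4e_ag.om n ι) x k]
        constructor
        · intro h j hj
          have := h ⟨j, Nat.lt_succ_of_le hj⟩
          rwa [← Pool.Agent.Lib.MP_a18d4e_ag.ext_val x] at this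
        · intro h j
          rw [← Pool.Agent.Lib.MP_a18d4e_ag.ext_val x]
          exact h j (Nat.le_of_lt_succ j.2)
    rw [a1, h1, e.surjective.exists]
    refine exists_congr fun m => forall_congr' fun k => exists_congr fun c =>
      and_congr Iff.rfl ⟨fun h j => ?_, fun h j hj => ?_⟩
    · rw [← Pool.Agent.Lib.MP_a18d4e_ag.ext_val x]
      exact h j (Nat.le_of_lt_succ j.2)
    · have := h ⟨j, Nat.lt_succ_of_le hj⟩
      rwa [← Pool.Agent.Lib.MP_a18d4e_ag.ext_val x] at this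
  · obtain ⟨c, hc, h3⟩ := h r
    exact ⟨c, hc, fun l hl => h3 ⟨l, Nat.lt_succ_of_le hl⟩⟩

end Pool.Agent.S00345
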