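import Pool.Statements.S00415
import Pool.Agent.Lib.MP_bb5dbd_ag.Normal

set_option autoImplicit false
open Pool Pool.MP_bb5dbd_ag
open Pool.Agent.Lib.MP_bb5dbd_ag

namespace Pool.Agent.S00415

/-- Every non-identity rational map φ of ℂ³ satisfying (1−z)φ(x)=φ(φ(zx)(1−z)/z) and φ(zx)/z→x as z→0 is conjugate, by a 1-homogeneous birational map, to (x(w+1)^(N−1), y/(w+1), w/(w+1)) for some N ≥ 0. -/
theorem result :
    ∀ (P : Fin 3 → MvPolynomial (Fin 3) ℂ) (Q : MvPolynomial (Fin 3) ℂ)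
      (Φ : (Fin 3 → ℂ) → (Fin 3 → ℂ)),
      Q ≠ 0 →
      (∀ p : Fin 3 → ℂ, Φ p = fun i => MvPolynomial.eval p (P i) / MvPolynomial.eval p Q) →
      (¬ ∀ i : Fin 3, P i = MvPolynomial.X i * Q) →
      (∃ V : Set ((Fin 3 → ℂ) × ℂ), IsOpen V ∧ V.Nonempty ∧
        ∀ q ∈ V, q.2 ≠ 0 ∧ MvPolynomial.eval q.1 Q ≠ 0 ∧
          MvPolynomial.eval (q.2 • q.1) Q ≠ 0 ∧
          MvPolynomial.eval (((1 - q.2) / q.2) • Φ (q.2 • q.1)) Q ≠ 0 ∧
          (1 - q.2) • Φ q.1 = Φ (((1 - q.2) / q.2) • Φ (q.2 • q.1))) →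
      (∃ U : Set (Fin 3 → ℂ), IsOpen U ∧ U.Nonempty ∧
        ∀ x ∈ U, Filter.Tendsto (fun z : ℂ => z⁻¹ • Φ (z • x))
          (nhdsWithin (0 : ℂ) {0}ᶜ) (nhds x)) →
      ∃ (L : Fin 3 → MvPolynomial (Fin 3) ℂ) (E : MvPolynomial (Fin 3) ℂ)
        (M : Fin 3 → MvPolynomial (Fin 3) ℂ) (F : MvPolynomial (Fin 3) ℂ)
        (Λ Λ' : (Fin 3 → ℂ) → (Fin 3 → ℂ)) (N : ℕ),
        E ≠ 0 ∧ F ≠ 0 ∧
        (∀ p : Fin 3 → ℂ, Λ p = fun i => MvPolynomial.eval p (L i) / MvPolynomial.eval p E) ∧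
        (∀ p : Fin 3 → ℂ, Λ' p = fun i => MvPolynomial.eval p (M i) / MvPolynomial.eval p F) ∧
        (∃ U : Set (Fin 3 → ℂ), IsOpen U ∧ U.Nonempty ∧ ∀ x ∈ U,
          MvPolynomial.eval x E ≠ 0 ∧ MvPolynomial.eval (Λ x) F ≠ 0 ∧ Λ' (Λ x) = x) ∧
        (∃ U : Set (Fin 3 → ℂ), IsOpen U ∧ U.Nonempty ∧ ∀ x ∈ U,
          MvPolynomial.eval x F ≠ 0 ∧ MvPolynomial.eval (Λ' x) E ≠ 0 ∧ Λ (Λ' x) = x) ∧
        (∃ V : Set ((Fin 3 → ℂ) × ℂ), IsOpen V ∧ V.Nonempty ∧ ∀ q ∈ V,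
          MvPolynomial.eval q.1 E ≠ 0 ∧ MvPolynomial.eval (q.2 • q.1) E ≠ 0 ∧
          Λ (q.2 • q.1) = q.2 • Λ q.1) ∧
        (∃ U : Set (Fin 3 → ℂ), IsOpen U ∧ U.Nonempty ∧ ∀ x ∈ U,
          x 2 + 1 ≠ 0 ∧ MvPolynomial.eval x E ≠ 0 ∧ MvPolynomial.eval (Λ x) Q ≠ 0 ∧
          MvPolynomial.eval
            (![x 0 * (x 2 + 1) ^ ((N : ℤ) - 1), x 1 / (x 2 + 1), x 2 / (x 2 + 1)]) E ≠ 0 ∧
          Φ (Λ x) = Λ ![x 0 * (x 2 + 1) ^ ((N : ℤ) - 1), x 1 / (x 2 + 1), x 2 / (x 2 + 1)]) := by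
  intro P Q Φ hQ hΦ hid ⟨V, hV, hVne, hVeq⟩ ⟨U, hU, hUne, hlim⟩
  classical
  have hdom := dominant P Q Φ hQ hΦ U hU hUne hlim
  let φ : K3 →ₐ[ℂ] K3 := subst _ hdom
  have hφ : ∀ i, φ (xg i) = algebraMap A3 K3 (P i) / algebraMap A3 K3 Q := subst_xg _ hdom
  obtain ⟨N, ξ, htop, hhom, h0, h1, h2⟩ := field_normal_form P Q Φ hQ hΦ hid V hV hVne
    (fun q hq => ⟨(hVeq q hq).1, (hVeq q hq).2.2.2.2⟩) φ hφ
  have halg := isAlgebraic_of_adjoin_eq_top _ htop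
  have hind : AlgebraicIndependent ℂ ξ :=
    (Algebra.IsAlgebraic.isTranscendenceBasis_of_le_trdeg_of_finite ℂ ξ
      (by rw [trdeg_K3]; simp)).1
  have hinj : Function.Injective (MvPolynomial.aeval ξ : A3 →ₐ[ℂ] K3) := hind
  let α₀ : K3 →ₐ[ℂ] K3 := subst ξ hinj
  have hsurj : Function.Surjective α₀ := by
    have : α₀.fieldRange = ⊤ := by
      rw [eq_top_iff, ← htop, IntermediateField.adjoin_le_iff]
      rintro _ ⟨i, rfl⟩
      exact ⟨xg i, subst_xg ξ hinj i⟩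
    intro y
    have hy : y ∈ α₀.fieldRange := this ▸ IntermediateField.mem_top
    exact hy
  let α : K3 ≃ₐ[ℂ] K3 := AlgEquiv.ofBijective α₀ ⟨α₀.toRingHom.injective, hsurj⟩
  have hα : ∀ i, α (xg i) = ξ i := subst_xg ξ hinj
  let β : K3 →ₐ[ℂ] K3 := α.symm
  have hβα : ∀ y, β (α y) = y := α.symm_apply_apply
  have hαβ : ∀ y, α (β y) = y := α.apply_symm_apply
  obtain ⟨L, E, hE, hLE⟩ := common_denom fun i => β (xg i)
  obtain ⟨M, F, hF, hMF⟩ := common_denom ξ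
  let Λ : (Fin 3 → ℂ) → (Fin 3 → ℂ) := fun p i => MvPolynomial.eval p (L i) / MvPolynomial.eval p E
  let Λ' : (Fin 3 → ℂ) → (Fin 3 → ℂ) := fun p i => MvPolynomial.eval p (M i) / MvPolynomial.eval p F
  have rΛ : ∀ i, Rep (β (xg i)) (fun x => Λ x i) := fun i => by
    rw [hLE i]; exact Rep.frac (L i) hE
  have rΛ' : ∀ i, Rep ((α : K3 →ₐ[ℂ] K3) (xg i)) (fun x => Λ' x i) := fun i => by
    change Rep (α (xg i)) _
    rw [hα, hMF i]; exact Rep.frac (M i) hF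
  refine ⟨L, E, M, F, Λ, Λ', N, hE, hF, fun _ => rfl, fun _ => rfl, ?_, ?_, ?_, ?_⟩
  · apply open_of_ev
    have h : ∀ᶠ x in gen, ∀ i, Λ' (Λ x) i = x i := by
      rw [Filter.eventually_all]
      intro i
      have := rep_hom_frac β rΛ (M i) F
      rw [← hMF i, ← hα, hβα] at this
      exact this.unique (rep_xg i)
    filter_upwards [ev_ne_zero hE, ev_hom_ne_zero β rΛ hF, h] with x a1 a2 a3
    exact ⟨a1, a2, funext a3⟩
  · apply open_of_ev
    have h : ∀ᶠ x in gen, ∀ i, Λ (Λ' x) i = x i := by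
      rw [Filter.eventually_all]
      intro i
      have := rep_hom_frac (α : K3 →ₐ[ℂ] K3) rΛ' (L i) E
      rw [← hLE i] at this
      change Rep (α (β (xg i))) _ at this
      rw [hαβ] at this
      exact this.unique (rep_xg i)
    filter_upwards [ev_ne_zero hF, ev_hom_ne_zero (α : K3 →ₐ[ℂ] K3) rΛ' hE, h] with x a1 a2 a3
    exact ⟨a1, a2, funext a3⟩
  · have hpoly : ∀ l : ℂ, l ≠ 0 → ∀ i, sc l (L i) * E = MvPolynomial.C l * L i * sc l E := by
      intro l hl i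
      have hcomm : (α : K3 →ₐ[ℂ] K3).comp (tau l) = (tau l).comp (α : K3 →ₐ[ℂ] K3) :=
        hom_ext fun j => by
          change α (tau l (xg j)) = tau l (α (xg j))
          rw [tau_xg hl, map_mul, AlgEquiv.commutes, hα, hhom l hl]
      have e1 : tau l (β (xg i)) = algebraMap ℂ K3 l * β (xg i) := by
        apply α.injective
        have := congrArg (fun f : K3 →ₐ[ℂ] K3 => f (β (xg i))) hcomm
        change α (tau l (β (xg i))) = tau l (α (β (xg i))) at this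
        rw [this, hαβ, map_mul, AlgEquiv.commutes, hαβ, tau_xg hl]
      rw [hLE i, map_div₀, tau_alg hl, tau_alg hl, ← mul_div_assoc,
        div_eq_div_iff (alg_ne_zero (sc_ne_zero hl hE)) (alg_ne_zero hE)] at e1
      apply IsFractionRing.injective A3 K3
      rw [map_mul, map_mul, map_mul, e1]
      rfl
    obtain ⟨y, -, hy⟩ := exists_ne_zero_of_open isOpen_univ Set.univ_nonempty hE
    refine ⟨{q | q.2 ≠ 0 ∧ MvPolynomial.eval q.1 E ≠ 0 ∧ MvPolynomial.eval (q.2 • q.1) E ≠ 0},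
      ?_, ⟨(y, 1), one_ne_zero, hy, by simpa using hy⟩, ?_⟩
    · have hc := MvPolynomial.continuous_eval E
      refine (isOpen_ne_fun continuous_snd continuous_const).inter
        ((isOpen_ne_fun (hc.comp continuous_fst) continuous_const).inter
          (isOpen_ne_fun (hc.comp (continuous_snd.smul continuous_fst)) continuous_const))
    · rintro ⟨x, z⟩ ⟨hz, hx, hzx⟩
      refine ⟨hx, hzx, funext fun i => ?_⟩
      have := congrArg (MvPolynomial.eval x) (hpoly z hz i)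
      rw [map_mul, map_mul, map_mul, eval_sc, eval_sc, MvPolynomial.eval_C] at this
      change MvPolynomial.eval (z • x) (L i) / MvPolynomial.eval (z • x) E =
        z * (MvPolynomial.eval x (L i) / MvPolynomial.eval x E)
      rw [← mul_div_assoc, div_eq_div_iff hzx hx, this]
  · apply open_of_ev
    let ψ : K3 →ₐ[ℂ] K3 := β.comp (φ.comp (α : K3 →ₐ[ℂ] K3))
    let Ψ : (Fin 3 → ℂ) → (Fin 3 → ℂ) := fun x =>
      ![x 0 * (x 2 + 1) ^ ((N : ℤ) - 1), x 1 / (x 2 + 1), x 2 / (x 2 + 1)]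
    have r21 : Rep (xg 2 + 1) (fun x => x 2 + 1) := by
      simpa using (rep_xg 2).add (Rep.const 1)
    have hβξ : ∀ i, β (ξ i) = xg i := fun i => by rw [← hα, hβα]
    have rΨ : ∀ i, Rep (ψ (xg i)) (fun x => Ψ x i) := by
      intro i
      change Rep (β (φ (α (xg i)))) _
      rw [hα]
      fin_cases i
      · change Rep (β (φ (ξ 0))) (fun x => x 0 * (x 2 + 1) ^ ((N : ℤ) - 1))
        rw [h0, map_mul, map_zpow₀, map_add, map_one, hβξ, hβξ]
        exact (rep_xg 0).mul (r21.zpow _)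
      · change Rep (β (φ (ξ 1))) (fun x => x 1 / (x 2 + 1))
        rw [h1, map_div₀, map_add, map_one, hβξ, hβξ]
        exact (rep_xg 1).div r21
      · change Rep (β (φ (ξ 2))) (fun x => x 2 / (x 2 + 1))
        rw [h2, map_div₀, map_add, map_one, hβξ]
        exact (rep_xg 2).div r21
    have h21 : xg 2 + 1 ≠ 0 := by
      have : (MvPolynomial.X 2 + 1 : A3) ≠ 0 := by
        intro h
        have := congrArg (MvPolynomial.eval (0 : Fin 3 → ℂ)) h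
        simp at this
      simpa [xg] using alg_ne_zero this
    have h : ∀ᶠ x in gen, ∀ i, Φ (Λ x) i = Λ (Ψ x) i := by
      rw [Filter.eventually_all]
      intro i
      have a1 := rep_hom_frac β rΛ (P i) Q
      have a2 := rep_hom_frac ψ rΨ (L i) E
      rw [← hLE i] at a2
      change Rep (β (φ (α (β (xg i))))) _ at a2
      rw [hαβ, hφ] at a2
      filter_upwards [a1.unique a2] with x hx
      rw [hΦ]
      exact hx
    filter_upwards [r21.ne_zero h21, ev_ne_zero hE, ev_hom_ne_zero β rΛ hQ,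
      ev_hom_ne_zero ψ rΨ hE, h] with x a1 a2 a3 a4 a5
    exact ⟨a1, a2, a3, a4, funext a5⟩

end Pool.Agent.S00415
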