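import Pool.Statements.S01534
import Pool.Agent.Lib.MP_57313b_al.Zf.Final

set_option autoImplicit false
open Pool Pool.MP_57313b_al

namespace Pool.Agent.S01534

/-- The negation of the preceding statement: There is no simple, non-artinian von Neumann regular ring having exactly one indecomposable injective right module up to isomorphism (equivalently, every von Neumann regular ring satisfies the isolation condition). -/
theorem result :
    ¬ (¬ ∃ (R : Type) (_ : Ring R),
      (∀ a : R, ∃ x : R, a * x * a = a) ∧ IsSimpleRing R ∧ ¬ IsArtinianRing R ∧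
      ∃ (M : Type) (_ : AddCommGroup M) (_ : Module Rᵐᵒᵖ M),
        Module.Injective Rᵐᵒᵖ M ∧ Nontrivial M ∧
        (∀ A B : Submodule Rᵐᵒᵖ M, IsCompl A B → A = ⊥ ∨ A = ⊤) ∧
        ∀ (N : Type) [AddCommGroup N] [Module Rᵐᵒᵖ N],
          Module.Injective Rᵐᵒᵖ N → Nontrivial N →
          (∀ A B : Submodule Rᵐᵒᵖ N, IsCompl A B → A = ⊥ ∨ A = ⊤) →
          Nonempty (N ≃ₗ[Rᵐᵒᵖ] M)) :=
  fun h => h Pool.Agent.Lib.MP_57313b_al.Zf.example_exists

end Pool.Agent.S01534
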