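import Pool.Statements.S01584
import Pool.Agent.Lib.MP_5bec91_al.Bu.Line


import Pool.Agent.Lib.MP_5bec91_al.Bu.AlgB

import Pool.Agent.Lib.MP_5bec91_al.Bu.Wind


import Pool.Agent.Lib.MP_5bec91_al.Bu.QGeo


import Pool.Agent.Lib.MP_5bec91_al.Bu.L2


import Pool.Agent.Lib.MP_5bec91_al.Bu.NewLib



import Pool.Agent.Lib.MP_5bec91_al.Bu.NewOne
import Pool.Agent.Lib.MP_5bec91_al.Bu.Base



import Pool.Agent.Lib.MP_5bec91_al.Bu.Step


set_option autoImplicit false
open Pool Pool.MP_5bec91_al

namespace Pool.Agent.S01584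

open Pool.Agent.Bu

/-- The negation of the preceding statement: If a 2-group G has a periodic, locally cyclic, fixed-point-free group of automorphisms acting transitively on its involutions, then every finitely generated subgroup of G is finite. -/
theorem result :
    ¬ (∀ (G : Type) [Group G],
      (∀ g : G, ∃ n : ℕ, g ^ (2 ^ n) = 1) →
      ∀ A : Subgroup (MulAut G),
        (∀ a ∈ A, IsOfFinOrder a) →
        (∀ H : Subgroup (MulAut G), H ≤ A → H.FG → IsCyclic H) →
        (∀ a ∈ A, a ≠ 1 → ∀ g : G, g ≠ 1 → a g ≠ g) →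
        (∀ x y : G, orderOf x = 2 → orderOf y = 2 → ∃ a ∈ A, a x = y) →
        ∀ H : Subgroup G, H.FG → Finite H) := by
  obtain ⟨F, _, _, _, hA⟩ := fieldStmt
  have hH := hypLib
  have hS := shiftLib hH
  have hL := lineLib hH
  have hB := algB algA
  have hSt : StStmt := stStmt hH hL algA
  have hP : P1DStmt := p1dStmt hH algA hB hSt
  exact limitStmt F hA (baseStmt hH hS hL algA F hA)
    (stepStmt F hA hH hB hSt hP (conesStmt hH hL algA hSt hP) windStmt (elecStmt hH)
      (liftStmt hH) (qgeoStmt hH) l1Stmt (rotStmt hH hB) (l2Stmt hH algA hB) (qaxisStmt hH)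
      (l3Stmt hH hB) (l4Stmt hH algA hB) (newLibStmt algA hB) (newOneStmt algA hB)
      (newLawStmt algA hB) (newChnStmt algA hB) (extLib algA hB))

end Pool.Agent.S01584
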