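import Pool.Statements.S01934
import Pool.Agent.Lib.MP_75bae7_al.Final

set_option autoImplicit false
open Pool Pool.MP_75bae7_al

namespace Pool.Agent.S01934

/-- The negation of the preceding statement: For every complex Lie algebra isomorphic to sp(2n) (n at least 2) or to G2, some division algebra is a skew field of fractions both of its enveloping algebra and of (Weyl algebra D_r) tensor (polynomials in s variables), for some r, s. -/
theorem result :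
    ¬ (∀ (L : Type) [LieRing L] [LieAlgebra ℂ L],
      ((∃ n : ℕ, 2 ≤ n ∧ Nonempty (L ≃ₗ⁅ℂ⁆ ↥(LieAlgebra.Symplectic.sp (Fin n) ℂ))) ∨
        Nonempty (L ≃ₗ⁅ℂ⁆ LieAlgebra.g₂ ℂ)) →
      ∃ r s : ℕ, ∃ (K : Type) (_ : DivisionRing K) (_ : Algebra ℂ K),
        (∃ f : UniversalEnvelopingAlgebra ℂ L →ₐ[ℂ] K,
          Function.Injective f ∧ ∀ x : K, ∃ a b, x = f a * (f b)⁻¹) ∧
        (∃ h : RingQuot (fun x y : FreeAlgebra ℂ (Fin r ⊕ Fin r ⊕ Fin s) =>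
              (∃ i j : Fin r,
                x = FreeAlgebra.ι ℂ (Sum.inl i : Fin r ⊕ Fin r ⊕ Fin s) *
                      FreeAlgebra.ι ℂ (Sum.inr (Sum.inl j) : Fin r ⊕ Fin r ⊕ Fin s) ∧
                y = FreeAlgebra.ι ℂ (Sum.inr (Sum.inl j) : Fin r ⊕ Fin r ⊕ Fin s) *
                      FreeAlgebra.ι ℂ (Sum.inl i : Fin r ⊕ Fin r ⊕ Fin s) +
                    (if i = j then 1 else 0)) ∨
              (∃ i j : Fin r,
                x = FreeAlgebra.ι ℂ (Sum.inl i : Fin r ⊕ Fin r ⊕ Fin s) *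
                      FreeAlgebra.ι ℂ (Sum.inl j : Fin r ⊕ Fin r ⊕ Fin s) ∧
                y = FreeAlgebra.ι ℂ (Sum.inl j : Fin r ⊕ Fin r ⊕ Fin s) *
                      FreeAlgebra.ι ℂ (Sum.inl i : Fin r ⊕ Fin r ⊕ Fin s)) ∨
              (∃ i j : Fin r,
                x = FreeAlgebra.ι ℂ (Sum.inr (Sum.inl i) : Fin r ⊕ Fin r ⊕ Fin s) *
                      FreeAlgebra.ι ℂ (Sum.inr (Sum.inl j) : Fin r ⊕ Fin r ⊕ Fin s) ∧
                y = FreeAlgebra.ι ℂ (Sum.inr (Sum.inl j) : Fin r ⊕ Fin r ⊕ Fin s) *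
                      FreeAlgebra.ι ℂ (Sum.inr (Sum.inl i) : Fin r ⊕ Fin r ⊕ Fin s)) ∨
              (∃ (a : Fin r ⊕ Fin r ⊕ Fin s) (k : Fin s),
                x = FreeAlgebra.ι ℂ a *
                      FreeAlgebra.ι ℂ (Sum.inr (Sum.inr k) : Fin r ⊕ Fin r ⊕ Fin s) ∧
                y = FreeAlgebra.ι ℂ (Sum.inr (Sum.inr k) : Fin r ⊕ Fin r ⊕ Fin s) *
                      FreeAlgebra.ι ℂ a)) →ₐ[ℂ] K,
          Function.Injective h ∧ ∀ x : K, ∃ a b, x = h a * (h b)⁻¹)) := by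
  intro H
  obtain ⟨r, s, D, _, _, ⟨f, hf, hfr⟩, h, hi, hhr⟩ :=
    H Lib.MP_75bae7_al.Sp (Or.inl ⟨2, le_rfl, ⟨LieEquiv.refl⟩⟩)
  have L := Lib.MP_75bae7_al.lop_isSys (S := Lib.MP_75bae7_al.sh1 (Fin r) (Fin s)) (R := ℂ)
  obtain ⟨w⟩ := Lib.MP_75bae7_al.exists_WF _ (by
    rintro _ _ (⟨i, j, rfl, rfl⟩ | ⟨i, j, rfl, rfl⟩ | ⟨i, j, rfl, rfl⟩ | ⟨a, k, rfl, rfl⟩)
    · have := L (.inl (.inl i)) (.inl (.inr j))
      rw [sub_eq_iff_eq_add'] at this
      by_cases hij : i = j <;>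
        simpa [Lib.MP_75bae7_al.sh1, Lib.MP_75bae7_al.om1, Lib.MP_75bae7_al.om0, hij] using this
    · have := L (.inl (.inl i)) (.inl (.inl j))
      simpa [Lib.MP_75bae7_al.sh1, Lib.MP_75bae7_al.om1, Lib.MP_75bae7_al.om0, sub_eq_zero]
        using this
    · have := L (.inl (.inr i)) (.inl (.inr j))
      simpa [Lib.MP_75bae7_al.sh1, Lib.MP_75bae7_al.om1, Lib.MP_75bae7_al.om0, sub_eq_zero]
        using this
    · have := L (.inr k) ((Equiv.sumAssoc _ _ _).symm a)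
      rw [sub_eq_iff_eq_add'] at this
      simpa [Lib.MP_75bae7_al.sh1, Lib.MP_75bae7_al.om1] using this.symm)
    (fun i j => Or.inl ⟨i, j, rfl, rfl⟩) (fun i j => Or.inr (Or.inl ⟨i, j, rfl, rfl⟩))
    (fun i j => Or.inr (Or.inr (Or.inl ⟨i, j, rfl, rfl⟩)))
    (fun a k => Or.inr (Or.inr (Or.inr ⟨a, k, rfl, rfl⟩))) h hi hhr
  exact Lib.MP_75bae7_al.no_WF w f hf hfr

end Pool.Agent.S01934
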