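import Pool.Statements.S02733
import Pool.Agent.Lib.MP_b138e1_al.NS.Quot
import Pool.Agent.Lib.MP_b138e1_al.NS.Code
import Pool.Agent.Lib.MP_b138e1_al.NS.Graph
import Pool.Agent.Lib.MP_b138e1_al.NS.Count
import Pool.Agent.Lib.MP_b138e1_al.NS.Word
import Pool.Agent.Lib.MP_b138e1_al.NS.Tree

set_option autoImplicit false
open Pool Pool.MP_b138e1_al

namespace Pool.Agent.S02733

/-- Every group with a finite generating set whose word metric satisfies Gromov's four-point condition is residually finite if and only if every such group is sofic (finite almost-multiplicative permutation approximations with few fixed points for nontrivial elements). -/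
theorem result :
  (∀ (G : Type) [Group G],
    (∃ S : Finset G, Subgroup.closure (S : Set G) = ⊤ ∧
      ∃ ℓ : G → ℕ,
        (∀ g : G, ℓ g = sInf {n : ℕ | ∃ l : List G, l.length = n ∧
          (∀ x ∈ l, x ∈ S ∨ x⁻¹ ∈ S) ∧ l.prod = g}) ∧
        ∃ δ : ℕ, ∀ x y z w : G,
          ℓ (x⁻¹ * y) + ℓ (z⁻¹ * w) ≤
            max (ℓ (x⁻¹ * z) + ℓ (y⁻¹ * w)) (ℓ (x⁻¹ * w) + ℓ (y⁻¹ * z)) + 2 * δ) →
    ∀ g : G, g ≠ 1 → ∃ H : Subgroup G, H.Normal ∧ H.FiniteIndex ∧ g ∉ H)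
  ↔
  (∀ (G : Type) [Group G],
    (∃ S : Finset G, Subgroup.closure (S : Set G) = ⊤ ∧
      ∃ ℓ : G → ℕ,
        (∀ g : G, ℓ g = sInf {n : ℕ | ∃ l : List G, l.length = n ∧
          (∀ x ∈ l, x ∈ S ∨ x⁻¹ ∈ S) ∧ l.prod = g}) ∧
        ∃ δ : ℕ, ∀ x y z w : G,
          ℓ (x⁻¹ * y) + ℓ (z⁻¹ * w) ≤
            max (ℓ (x⁻¹ * z) + ℓ (y⁻¹ * w)) (ℓ (x⁻¹ * w) + ℓ (y⁻¹ * z)) + 2 * δ) →
    ∀ F : Finset G, ∀ ε : ℝ, 0 < ε →
      ∃ n : ℕ, 0 < n ∧ ∃ φ : G → Equiv.Perm (Fin n),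
        φ 1 = 1 ∧
        (∀ g ∈ F, ∀ h ∈ F,
          (((Finset.univ.filter fun i : Fin n => φ (g * h) i ≠ φ g (φ h i)).card : ℕ) : ℝ)
            < ε * (n : ℝ)) ∧
        (∀ g ∈ F, g ≠ 1 →
          (((Finset.univ.filter fun i : Fin n => φ g i = i).card : ℕ) : ℝ) < ε * (n : ℝ))) := by
  obtain ⟨Γ, _, h1, h2⟩ := Pool.Agent.NS.exists_nonsofic Pool.Agent.NS.codeStmt
    Pool.Agent.NS.graphStmt Pool.Agent.NS.countStmt Pool.Agent.NS.treeStmt Pool.Agent.NS.wordStmt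
  constructor
  · intro h G _ hG
    exact Pool.Agent.NS.rfStmt G (h G hG)
  · intro h
    exact absurd (h Γ h1) h2

end Pool.Agent.S02733
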