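import Pool.Statements.S02774
import Pool.Agent.Lib.MP_b442e4_al.Basic

set_option autoImplicit false
open Pool Pool.MP_b442e4_al

namespace Pool.Agent.S02774

/-- The negation of the preceding statement: For every group variety given by laws, every projective group of the variety that is not finitely generated is the coproduct in the variety (the 𝔐-free product) of a family of countably generated projective groups of the variety. -/
theorem result :
    ¬ (∀ (S : Set (FreeGroup ℕ)) (G : Type) [Group G],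
    (∀ w ∈ S, ∀ f : ℕ → G, FreeGroup.lift f w = 1) →
    (∀ (A B : Type) [Group A] [Group B],
      (∀ w ∈ S, ∀ f : ℕ → A, FreeGroup.lift f w = 1) →
      (∀ w ∈ S, ∀ f : ℕ → B, FreeGroup.lift f w = 1) →
      ∀ (π : A →* B), Function.Surjective π →
        ∀ (φ : G →* B), ∃ ψ : G →* A, π.comp ψ = φ) →
    ¬ Group.FG G →
    ∃ (I : Type) (H : I → Type) (_ : ∀ i, Group (H i)) (ι : ∀ i, H i →* G),
      (∀ i,
        (∀ w ∈ S, ∀ f : ℕ → H i, FreeGroup.lift f w = 1) ∧
        (∃ s : Set (H i), s.Countable ∧ Subgroup.closure s = ⊤) ∧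
        (∀ (A B : Type) [Group A] [Group B],
          (∀ w ∈ S, ∀ f : ℕ → A, FreeGroup.lift f w = 1) →
          (∀ w ∈ S, ∀ f : ℕ → B, FreeGroup.lift f w = 1) →
          ∀ (π : A →* B), Function.Surjective π →
            ∀ (φ : H i →* B), ∃ ψ : H i →* A, π.comp ψ = φ)) ∧
      (∀ (K : Type) [Group K],
        (∀ w ∈ S, ∀ f : ℕ → K, FreeGroup.lift f w = 1) →
        ∀ g : ∀ i, H i →* K, ∃! θ : G →* K, ∀ i, θ.comp (ι i) = g i)) := by
  intro h
  obtain ⟨I, H, inst, ι, hH, hU⟩ := h Lib.MP_b442e4_al.laws Lib.MP_b442e4_al.P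
    Lib.MP_b442e4_al.P_laws
    (fun A B _ _ hA _ π hπ φ => Lib.MP_b442e4_al.P_projective A B hA π hπ φ)
    Lib.MP_b442e4_al.P_not_fg
  refine Lib.MP_b442e4_al.P_not_coproduct I H ι (fun i => ?_) hU
  obtain ⟨-, ⟨s, hs, hs'⟩, -⟩ := hH i
  exact Lib.MP_b442e4_al.countable_of_closure hs hs'

end Pool.Agent.S02774
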