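import Pool.Statements.S03091
import Pool.Agent.Lib.MP_cdc9ab_al.Final

set_option autoImplicit false
open Pool Pool.MP_cdc9ab_al

namespace Pool.Agent.S03091

/-- For every connected noncompact real Lie group with finite center and semisimple Lie algebra, every continuous invariant homogeneous real cocycle of any degree is cohomologous (via a continuous invariant cochain) to a bounded one. -/
theorem result :
    ∀ (E : Type) [NormedAddCommGroup E] [NormedSpace ℝ E] [FiniteDimensional ℝ E]
      (G : Type) [TopologicalSpace G] [ChartedSpace E G] [Group G]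
      [LieGroup (modelWithCornersSelf ℝ E) ((⊤ : ℕ∞) : WithTop ℕ∞) G]
      [LieGroup (modelWithCornersSelf ℝ E) (minSmoothness ℝ 3) G],
      ConnectedSpace G → NoncompactSpace G → Finite (Subgroup.center G) →
      LieAlgebra.IsSemisimple ℝ (GroupLieAlgebra (modelWithCornersSelf ℝ E) G) →
      ∀ (n : ℕ) (f : (Fin (n + 1) → G) → ℝ), Continuous f →
        (∀ (h : G) (x : Fin (n + 1) → G), f (fun j => h * x j) = f x) →
        (∀ x : Fin (n + 2) → G,
          ∑ i : Fin (n + 2), (-1 : ℝ) ^ (i : ℕ) * f (x ∘ i.succAbove) = 0) →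
        ∃ g : (Fin n → G) → ℝ, Continuous g ∧
          (∀ (h : G) (x : Fin n → G), g (fun j => h * x j) = g x) ∧
          ∃ C : ℝ, ∀ x : Fin (n + 1) → G,
            |f x + ∑ i : Fin (n + 1), (-1 : ℝ) ^ (i : ℕ) * g (x ∘ i.succAbove)| ≤ C := by
  intro E _ _ _ G _ _ _ _ _ hc _ hz hs n f hf hinv hcoc
  have : FiniteDimensional ℝ (GroupLieAlgebra (modelWithCornersSelf ℝ E) G) :=
    inferInstanceAs (FiniteDimensional ℝ E)
  obtain ⟨D, L, e, he⟩ := Lib.MP_cdc9ab_al.exists_ldata
    (GroupLieAlgebra (modelWithCornersSelf ℝ E) G)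
  obtain ⟨h2, ρ, hρ, hprop, hrange⟩ := Lib.MP_cdc9ab_al.setup E G hc hz L e he
  have := topologicalGroup_of_lieGroup (modelWithCornersSelf ℝ E) ((⊤ : ℕ∞) : WithTop ℕ∞) (G := G)
  have := FiniteDimensional.proper_real E
  have := ChartedSpace.locallyCompactSpace E G
  have : SigmaCompactSpace G := ⟨⟨fun k : ℕ => {g : G | ∀ i j, |ρ g i j| ≤ k},
    fun k => hprop k, Set.eq_univ_of_forall fun g => by
      obtain ⟨k, hk⟩ := exists_nat_ge (∑ i, ∑ j, |ρ g i j|)
      refine Set.mem_iUnion.mpr ⟨k, fun i j => le_trans ?_ hk⟩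
      exact (Finset.single_le_sum (f := fun j => |ρ g i j|) (fun _ _ => abs_nonneg _)
        (Finset.mem_univ j)).trans (Finset.single_le_sum (f := fun i => ∑ j, |ρ g i j|)
        (fun _ _ => Finset.sum_nonneg fun _ _ => abs_nonneg _) (Finset.mem_univ i))⟩⟩
  have := ChartedSpace.secondCountable_of_sigmaCompact E G
  exact Lib.MP_cdc9ab_al.final_group L ρ hρ hprop hrange n f hf hinv hcoc

end Pool.Agent.S03091
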