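import Pool.Statements.S03339
import Pool.Agent.Lib.MP_e21d7a_al.SysA


set_option autoImplicit false
open Pool Pool.MP_e21d7a_al

namespace Pool.Agent.S03339

/-- For the rank-4 system A and the rank-5 cyclic system B, every infinite reduced word's inversion roots, normalized to coordinate sum 1 (i.e. viewed projectively), have exactly one accumulation point. -/
theorem result :
    (∀ (M : CoxeterMatrix (Fin 4)), (∀ i j : Fin 4, i ≠ j → M i j = 0) →
      ∀ (G : Matrix (Fin 4) (Fin 4) ℝ),
        (∀ i j : Fin 4, G i j =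
          if i = j then 1
          else if (i = 0 ∧ j = 1) ∨ (i = 1 ∧ j = 0) then -2
          else if (i = 2 ∧ j = 3) ∨ (i = 3 ∧ j = 2) then -6
          else -1) →
      ∀ (σ : Fin 4 → Matrix (Fin 4) (Fin 4) ℝ),
        (∀ i a b : Fin 4, σ i a b = (if a = b then (1 : ℝ) else 0) - (if a = i then 2 * G i b else 0)) →
      ∀ s : ℕ → Fin 4,
        (∀ k : ℕ, M.toCoxeterSystem.IsReduced (List.ofFn fun j : Fin k => s j)) →
        ∃! x : Fin 4 → ℝ, AccPt x (Filter.principal (Set.range fun k : ℕ =>
          (∑ i, (Matrix.mulVec (List.ofFn fun j : Fin k => σ (s j)).prod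
              (Pi.single (s k) (1 : ℝ) : Fin 4 → ℝ)) i)⁻¹ •
            Matrix.mulVec (List.ofFn fun j : Fin k => σ (s j)).prod
              (Pi.single (s k) (1 : ℝ) : Fin 4 → ℝ)))) ∧
    (∀ (M : CoxeterMatrix (Fin 5)),
        (∀ i j : Fin 5, i ≠ j → M i j = if i - j = 1 ∨ j - i = 1 then 0 else 2) →
      ∀ (G : Matrix (Fin 5) (Fin 5) ℝ),
        (∀ i j : Fin 5, G i j =
          if i = j then 1
          else if i - j = 1 ∨ j - i = 1 then -2
          else 0) →
      ∀ (σ : Fin 5 → Matrix (Fin 5) (Fin 5) ℝ),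
        (∀ i a b : Fin 5, σ i a b = (if a = b then (1 : ℝ) else 0) - (if a = i then 2 * G i b else 0)) →
      ∀ s : ℕ → Fin 5,
        (∀ k : ℕ, M.toCoxeterSystem.IsReduced (List.ofFn fun j : Fin k => s j)) →
        ∃! x : Fin 5 → ℝ, AccPt x (Filter.principal (Set.range fun k : ℕ =>
          (∑ i, (Matrix.mulVec (List.ofFn fun j : Fin k => σ (s j)).prod
              (Pi.single (s k) (1 : ℝ) : Fin 5 → ℝ)) i)⁻¹ •
            Matrix.mulVec (List.ofFn fun j : Fin k => σ (s j)).prod
              (Pi.single (s k) (1 : ℝ) : Fin 5 → ℝ)))) := by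
  constructor
  · intro M _ G hG σ hσ s hs
    refine Pool.Agent.Lib.MP_e21d7a_al.sysA σ ?_ s ?_
    · intro i x
      funext a
      fin_cases i <;> fin_cases a <;>
        simp [Matrix.mulVec, dotProduct, Fin.sum_univ_four, hσ, hG,
          Pool.Agent.Lib.MP_e21d7a_al.rA] <;> ring
    · intro k h
      exact Pool.Agent.Lib.MP_e21d7a_al.reduced_block M.toCoxeterSystem s hs k 0 h.symm
        (fun j h1 h2 => by omega)
  · intro M hM G hG σ hσ s hs
    refine Pool.Agent.Lib.MP_e21d7a_al.sysB σ ?_ s ?_
    · intro i x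
      funext a
      fin_cases i <;> fin_cases a <;>
        simp +decide [Matrix.mulVec, dotProduct, Fin.sum_univ_five, hσ, hG,
          Pool.Agent.Lib.MP_e21d7a_al.rB] <;> ring
    · intro i d h
      by_contra hc
      refine Pool.Agent.Lib.MP_e21d7a_al.reduced_block M.toCoxeterSystem s hs i d h ?_
      intro j h1 h2
      by_cases hji : s j = s i
      · rw [hji]
      · have hadj : ¬ (s j - s i = 1 ∨ s i - s j = 1) := fun h' => hc ⟨j, h1, h2, h'⟩
        have h3 := M.toCoxeterSystem.simple_mul_simple_pow (s j) (s i)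
        rw [hM _ _ hji, if_neg hadj, pow_two] at h3
        have h4 := M.toCoxeterSystem.simple_mul_simple_self (s j)
        have h5 := M.toCoxeterSystem.simple_mul_simple_self (s i)
        set a := M.toCoxeterSystem.simple (s j)
        set b := M.toCoxeterSystem.simple (s i)
        show a * b = b * a
        calc a * b = a * (a * b * (a * b)) * b := by rw [h3, mul_one]
          _ = (a * a) * (b * a) * (b * b) := by simp only [mul_assoc]
          _ = b * a := by rw [h4, h5, one_mul, mul_one]

end Pool.Agent.S03339
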