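import Pool.Statements.S03636
import Pool.Agent.Lib.MP_fdd6ec_al.Rays
import Pool.Agent.Lib.MP_fdd6ec_al.Acyl

set_option autoImplicit false
open Pool Pool.MP_fdd6ec_al

namespace Pool.Agent.S03636

/-- The negation of the preceding statement: Every finitely presented group whose Cayley graph has three pairwise non-asymptotic Morse geodesic rays from 1 is not virtually cyclic and acts acylindrically, with unbounded orbits, by isometries on a geodesic hyperbolic space. -/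
theorem result :
    ¬ (∀ (G : Type) [Group G] (n : ℕ) (φ : FreeGroup (Fin n) →* G)
    (rels : Finset (FreeGroup (Fin n))) (d : G → G → ℕ),
    Function.Surjective φ →
    φ.ker = Subgroup.normalClosure (rels : Set (FreeGroup (Fin n))) →
    (∀ g h : G, d g h = sInf {k : ℕ | ∃ w : FreeGroup (Fin n), φ w = g⁻¹ * h ∧ w.toWord.length = k}) →
    (∃ γ : Fin 3 → ℕ → G,
      (∀ i, γ i 0 = 1) ∧
      (∀ i, ∀ s t : ℕ, ((d (γ i s) (γ i t) : ℕ) : ℝ) = |(s : ℝ) - (t : ℝ)|) ∧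
      (∀ i, ∀ L C : ℝ, 1 ≤ L → 0 ≤ C → ∃ M : ℝ, ∀ (a b m : ℕ) (q : ℕ → G),
          q 0 = γ i a → q m = γ i b →
          (∀ s t : ℕ, s ≤ m → t ≤ m →
              |(s : ℝ) - (t : ℝ)| / L - C ≤ ((d (q s) (q t) : ℕ) : ℝ) ∧
              ((d (q s) (q t) : ℕ) : ℝ) ≤ L * |(s : ℝ) - (t : ℝ)| + C) →
          ∀ s : ℕ, s ≤ m → ∃ t : ℕ, ((d (q s) (γ i t) : ℕ) : ℝ) ≤ M) ∧
      (∀ i j : Fin 3, i ≠ j → ∀ B : ℝ, ∃ t : ℕ, B < ((d (γ i t) (γ j t) : ℕ) : ℝ))) →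
    ((¬ ∃ H : Subgroup G, H.index ≠ 0 ∧ IsCyclic H) ∧
     ∃ (X : Type) (_ : MetricSpace X) (ρ : G →* (X ≃ᵢ X)) (δ : ℝ),
       (∀ x y : X, ∃ c : ℝ → X, c 0 = x ∧ c (dist x y) = y ∧
          ∀ s t : ℝ, 0 ≤ s → s ≤ dist x y → 0 ≤ t → t ≤ dist x y →
            dist (c s) (c t) = |s - t|) ∧
       (∀ x y z w : X,
          min ((dist x w + dist z w - dist x z) / 2) ((dist y w + dist z w - dist y z) / 2) - δ
            ≤ (dist x w + dist y w - dist x y) / 2) ∧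
       (∀ ε : ℝ, 0 < ε → ∃ R : ℝ, ∃ N : ℕ, ∀ x y : X, R ≤ dist x y →
          {g : G | dist x (ρ g x) ≤ ε ∧ dist y (ρ g y) ≤ ε}.encard ≤ (N : ℕ∞)) ∧
       (∃ x : X, ∀ B : ℝ, ∃ g : G, B < dist x (ρ g x)))) := by
  intro h
  open Pool.Agent.Lib.MP_fdd6ec_al in
  obtain ⟨-, X, _, ρ, δ, hgeo, hhyp, hac, x, hx⟩ := h GG 5 phi rels dd phi_surj phi_ker
    (fun _ _ => rfl) ⟨ray, ray_zero, ray_geo, ray_morse, ray_far⟩
  open Pool.Agent.Lib.MP_fdd6ec_al in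
  obtain ⟨B, hB⟩ := bounded_of_snormal ρ hgeo hhyp hac AA AA_comm (lp_mem 0 1) (lp_mem 0 ii)
    uv_inj AA_snormal x
  obtain ⟨g, hg⟩ := hx B
  exact absurd (hB g) (not_le.mpr hg)

end Pool.Agent.S03636
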