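import Pool.Statements.S04243
import Pool.Agent.Lib.MP_2fb14c_an.Frame

set_option autoImplicit false
open Pool Pool.MP_2fb14c_an

namespace Pool.Agent.S04243

/-- There are constants 0<A≤B such that, in every dimension n, every finite family of unit vectors in ℂⁿ forming a 2-tight frame splits into three parts, each a Riesz sequence with lower bound A and upper bound B. -/
theorem result :
    ∃ A B : ℝ, 0 < A ∧ A ≤ B ∧
      ∀ (n M : ℕ) (u : Fin M → EuclideanSpace ℂ (Fin n)),
        (∀ i, ‖u i‖ = 1) →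
        (∀ x : EuclideanSpace ℂ (Fin n),
          ∑ i, ‖(inner ℂ (u i) x : ℂ)‖ ^ 2 = 2 * ‖x‖ ^ 2) →
        ∃ f : Fin M → Fin 3, ∀ (j : Fin 3) (c : Fin M → ℂ),
          A * ∑ i ∈ Finset.univ.filter (fun i => f i = j), ‖c i‖ ^ 2
              ≤ ‖∑ i ∈ Finset.univ.filter (fun i => f i = j), c i • u i‖ ^ 2 ∧
          ‖∑ i ∈ Finset.univ.filter (fun i => f i = j), c i • u i‖ ^ 2
              ≤ B * ∑ i ∈ Finset.univ.filter (fun i => f i = j), ‖c i‖ ^ 2 := by
  exact ⟨2 / 10 ^ 14, 2, by norm_num, by norm_num,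
    fun _ _ u h1 h => Pool.Agent.Lib.MP_2fb14c_an.frame_three u h1 h⟩

end Pool.Agent.S04243
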