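import Pool.Statements.S04467
import Pool.Agent.Lib.MP_41d825_an.Polar

set_option autoImplicit false
open Pool Pool.MP_41d825_an

namespace Pool.Agent.S04467

/-- Every cubic rigid system x'=-y+xP, y'=x+yP with P=a+bx+cy+dx^2+exy has at most two limit cycles (isolated non-constant periodic orbits), and some choice of parameters has exactly two. -/
theorem result :
    (∀ a b c d e : ℝ, ∀ PO LC : Set (ℝ × ℝ) → Prop,
      (∀ O, PO O ↔ ∃ γ : ℝ → ℝ × ℝ, ∃ T : ℝ, 0 < T ∧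
        (∀ t, HasDerivAt γ
          (-(γ t).2 + (γ t).1 * (a + b * (γ t).1 + c * (γ t).2 + d * (γ t).1 ^ 2 + e * (γ t).1 * (γ t).2),
           (γ t).1 + (γ t).2 * (a + b * (γ t).1 + c * (γ t).2 + d * (γ t).1 ^ 2 + e * (γ t).1 * (γ t).2)) t) ∧
        Function.Periodic γ T ∧ (∃ s t, γ s ≠ γ t) ∧ Set.range γ = O) →
      (∀ O, LC O ↔ PO O ∧ ∃ U : Set (ℝ × ℝ), IsOpen U ∧ O ⊆ U ∧
        ∀ O', PO O' → O' ⊆ U → O' = O) →
      ∀ O₁ O₂ O₃, LC O₁ → LC O₂ → LC O₃ → O₁ = O₂ ∨ O₁ = O₃ ∨ O₂ = O₃) ∧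
    (∃ a b c d e : ℝ, ∀ PO LC : Set (ℝ × ℝ) → Prop,
      (∀ O, PO O ↔ ∃ γ : ℝ → ℝ × ℝ, ∃ T : ℝ, 0 < T ∧
        (∀ t, HasDerivAt γ
          (-(γ t).2 + (γ t).1 * (a + b * (γ t).1 + c * (γ t).2 + d * (γ t).1 ^ 2 + e * (γ t).1 * (γ t).2),
           (γ t).1 + (γ t).2 * (a + b * (γ t).1 + c * (γ t).2 + d * (γ t).1 ^ 2 + e * (γ t).1 * (γ t).2)) t) ∧
        Function.Periodic γ T ∧ (∃ s t, γ s ≠ γ t) ∧ Set.range γ = O) →
      (∀ O, LC O ↔ PO O ∧ ∃ U : Set (ℝ × ℝ), IsOpen U ∧ O ⊆ U ∧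
        ∀ O', PO O' → O' ⊆ U → O' = O) →
      ∃ O₁ O₂, LC O₁ ∧ LC O₂ ∧ O₁ ≠ O₂) := by
  refine ⟨fun a b c d e PO LC hPO hLC => ?_, ?_⟩
  · have e1 : PO = Pool.Agent.Lib.MP_41d825_an.IsPO a b c d e := funext fun O => propext (hPO O)
    subst e1
    exact Pool.Agent.Lib.MP_41d825_an.upper_bound a b c d e LC hLC
  · obtain ⟨a, b, c, d, e, H⟩ := Pool.Agent.Lib.MP_41d825_an.lower_bound
    refine ⟨a, b, c, d, e, fun PO LC hPO hLC => ?_⟩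
    have e1 : PO = Pool.Agent.Lib.MP_41d825_an.IsPO a b c d e := funext fun O => propext (hPO O)
    subst e1
    exact H LC hLC

end Pool.Agent.S04467
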