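import Pool.Statements.S04606
import Pool.Agent.Lib.MP_4bee3f_an.Basic
import Pool.Agent.Lib.MP_4bee3f_an.Ex

set_option autoImplicit false
open MeasureTheory
open Pool Pool.MP_4bee3f_an

namespace Pool.Agent.S04606

open Pool.Agent.Lib.MP_4bee3f_an in
lemma lip_loc {g : E → ℝ} (hg : LB g) {Ω : Set E} (hΩ : Ω ⊆ Metric.ball 0 1) :
    ∀ x ∈ Ω, ∃ C : NNReal, ∃ U ∈ nhds x, LipschitzOnWith C g (U ∩ Ω) := by
  obtain ⟨K, hK⟩ := hg
  exact fun x _ => ⟨K, Set.univ, Filter.univ_mem, hK.mono (fun y hy => hΩ hy.2)⟩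

open Pool.Agent.Lib.MP_4bee3f_an in
lemma lip_zero {g : E → ℝ} (hg : LB g) {Ω : Set E} (hΩ : Ω ⊆ Metric.ball 0 1) :
    ContDiffOn ℝ (0 : ℕ) g Ω ∧ ∀ x ∈ Ω, ∃ C : NNReal, ∃ U ∈ nhds x,
      LipschitzOnWith C (iteratedFDeriv ℝ 0 g) (U ∩ Ω) := by
  obtain ⟨K, hK⟩ := hg
  refine ⟨?_, fun x _ => ⟨1 * K, Set.univ, Filter.univ_mem, ?_⟩⟩
  · rw [Nat.cast_zero, contDiffOn_zero]
    exact hK.continuousOn.mono hΩ
  · rw [iteratedFDeriv_zero_eq_comp]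
    exact (continuousMultilinearCurryFin0 ℝ E ℝ).symm.isometry.lipschitz.comp_lipschitzOnWith
      (hK.mono (fun y hy => hΩ hy.2))


/-- The same statement from a plane witness: Cauchy-Riemann system with a Lipschitz right-hand side. -/
theorem viaPlane :
    ¬ (∀ (n : ℕ), 2 ≤ n → ∀ (k : ℕ) (Ω : Set (EuclideanSpace ℝ (Fin n))), IsOpen Ω → IsConnected Ω →
  ∀ (A : Fin n → Fin n → Fin n → EuclideanSpace ℝ (Fin n) → ℝ)
    (B : Fin n → Fin n → EuclideanSpace ℝ (Fin n) → ℝ)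
    (c : Fin n → EuclideanSpace ℝ (Fin n) → ℝ)
    (u : Fin n → EuclideanSpace ℝ (Fin n) → ℝ)
    (J : EuclideanSpace ℝ (Fin n) → ℝ),
  (∀ x ∈ Ω, ∀ ξ : Fin n → ℝ, ξ ≠ 0 →
      (Matrix.of fun i l => ∑ j, ξ j * A j i l x).det ≠ 0) →
  (∀ i, ∀ x ∈ Ω, ∃ C : NNReal, ∃ U ∈ nhds x, LipschitzOnWith C (u i) (U ∩ Ω)) →
  (∀ᵐ x ∂(volume.restrict Ω), ∀ i,
      ∑ j, ∑ l, A j i l x * fderiv ℝ (u l) x (EuclideanSpace.single j 1)
        + ∑ l, B i l x * u l x = c i x) →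
  (∀ x ∈ Ω, J x ≠ 0) →
  (∀ᵐ x ∂(volume.restrict Ω),
      (Matrix.of fun i j => fderiv ℝ (u i) x (EuclideanSpace.single j 1)).det = J x) →
  (((∀ j i l, ContDiffOn ℝ k (A j i l) Ω ∧ ∀ x ∈ Ω, ∃ C : NNReal, ∃ U ∈ nhds x,
        LipschitzOnWith C (iteratedFDeriv ℝ k (A j i l)) (U ∩ Ω)) ∧
    (∀ i l, ContDiffOn ℝ k (B i l) Ω ∧ ∀ x ∈ Ω, ∃ C : NNReal, ∃ U ∈ nhds x,
        LipschitzOnWith C (iteratedFDeriv ℝ k (B i l)) (U ∩ Ω)) ∧
    (∀ i, ContDiffOn ℝ k (c i) Ω ∧ ∀ x ∈ Ω, ∃ C : NNReal, ∃ U ∈ nhds x,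
        LipschitzOnWith C (iteratedFDeriv ℝ k (c i)) (U ∩ Ω)) ∧
    (ContDiffOn ℝ k J Ω ∧ ∀ x ∈ Ω, ∃ C : NNReal, ∃ U ∈ nhds x,
        LipschitzOnWith C (iteratedFDeriv ℝ k J) (U ∩ Ω)) →
    ∀ i, ContDiffOn ℝ (k + 1) (u i) Ω ∧ ∀ x ∈ Ω, ∃ C : NNReal, ∃ U ∈ nhds x,
        LipschitzOnWith C (iteratedFDeriv ℝ (k + 1) (u i)) (U ∩ Ω)) ∧
   ((∀ j i l, ContDiffOn ℝ (k + 1) (A j i l) Ω) ∧
    (∀ i l, ContDiffOn ℝ (k + 1) (B i l) Ω) ∧
    (∀ i, ContDiffOn ℝ (k + 1) (c i) Ω) ∧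
    ContDiffOn ℝ (k + 1) J Ω →
    ∀ i, ContDiffOn ℝ (k + 2) (u i) Ω))) := by
  intro H
  open Pool.Agent.Lib.MP_4bee3f_an in
  -- a ball on which the Jacobian does not vanish
  obtain ⟨ρ, hρ, hρ1, hJ⟩ : ∃ ρ : ℝ, 0 < ρ ∧ ρ ≤ 1 ∧ ∀ p ∈ Metric.ball (0 : E) ρ, JJ p ≠ 0 := by
    obtain ⟨K, hK⟩ := LB_JJ
    have hc : ContinuousAt JJ 0 :=
      hK.continuousOn.continuousAt (Metric.ball_mem_nhds 0 one_pos)
    have h0 : JJ 0 ≠ 0 := by simp [JJ, N, d0]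
    obtain ⟨ε, hε, h⟩ := Metric.mem_nhds_iff.1 (hc.eventually_ne h0)
    exact ⟨min ε 1, lt_min hε one_pos, min_le_right _ _, fun p hp =>
      h (Metric.ball_subset_ball (min_le_left _ _) hp)⟩
  have hΩ : Metric.ball (0 : E) ρ ⊆ Metric.ball 0 1 := Metric.ball_subset_ball hρ1
  have hae : ∀ᵐ p ∂(volume.restrict (Metric.ball (0 : E) ρ)), p ≠ 0 := by
    refine ae_restrict_of_ae ?_
    have : (volume : Measure E) {0} = 0 := measure_singleton 0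
    exact compl_mem_ae_iff.2 this
  have key := H 2 le_rfl 0 (Metric.ball 0 ρ) Metric.isOpen_ball (Metric.isConnected_ball hρ)
    (fun j i l _ => ![![![1, 0], ![0, 1]], ![![0, -1], ![1, 0]]] j i l)
    (fun _ _ _ => 0) ![fun p => 2 + 2 * d0 p, fun p => 2 * d1 p] ![u0, u1] JJ
    (by
      intro x _ ξ hξ
      rw [Matrix.det_fin_two]
      simp only [Matrix.of_apply, Fin.sum_univ_two]
      simp only [Matrix.cons_val_zero, Matrix.cons_val_one]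
      intro h
      apply hξ
      have h0 : ξ 0 = 0 := by nlinarith [sq_nonneg (ξ 0), sq_nonneg (ξ 1)]
      have h1 : ξ 1 = 0 := by nlinarith [sq_nonneg (ξ 0), sq_nonneg (ξ 1)]
      ext i; fin_cases i
      · exact h0
      · exact h1)
    (by
      intro i
      fin_cases i
      · exact lip_loc LB_u0 hΩ
      · exact lip_loc LB_u1 hΩ)
    (by
      filter_upwards [hae] with p hp i
      have hN := (N_pos hp).ne'
      fin_cases i
      · simp [Fin.sum_univ_two, fderiv_u0 hp, fderiv_u1 hp, d0]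
        field_simp
        ring
      · simp [Fin.sum_univ_two, fderiv_u0 hp, fderiv_u1 hp, d1]
        field_simp
        ring)
    hJ
    (by
      filter_upwards [hae] with p hp
      have hN := (N_pos hp).ne'
      rw [Matrix.det_fin_two]
      simp [fderiv_u0 hp, fderiv_u1 hp, JJ, d0]
      field_simp
      simp only [N]
      ring)
  have key2 := key.1 ⟨fun j i l => lip_zero (LB_const _) hΩ, fun i l => lip_zero (LB_const _) hΩ,
    (by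
      intro i
      fin_cases i
      · exact lip_zero ((LB_const 2).add (LB_d0.const_mul 2)) hΩ
      · exact lip_zero (LB_d1.const_mul 2) hΩ), lip_zero LB_JJ hΩ⟩
  obtain ⟨C, U, hU, hL⟩ := (key2 0).2 0 (Metric.mem_ball_self hρ)
  have hL' : LipschitzOnWith C (iteratedFDeriv ℝ 1 u0) (U ∩ Metric.ball 0 ρ) := hL
  obtain ⟨δ, hδ, hδU⟩ := Metric.mem_nhds_iff.1
    (Filter.inter_mem hU (Metric.ball_mem_nhds (0 : E) hρ))
  -- a small positive number with very negative logarithm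
  obtain ⟨t, ht0, htδ, htl⟩ : ∃ t : ℝ, 0 < t ∧ t < δ ∧ Real.log t ≤ -(C : ℝ) - 1 := by
    refine ⟨min (δ / 2) (Real.exp (-(C : ℝ) - 1)), lt_min (half_pos hδ) (Real.exp_pos _),
      (min_le_left _ _).trans_lt (half_lt_self hδ), ?_⟩
    rw [Real.log_le_iff_le_exp (lt_min (half_pos hδ) (Real.exp_pos _))]
    exact min_le_right _ _
  set p : E := EuclideanSpace.single 0 t with hp
  have hpn : ‖p‖ = t := by simp [hp, abs_of_pos ht0]
  have hp0 : p ≠ 0 := by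
    intro h; rw [h, norm_zero] at hpn; exact ht0.ne hpn
  have hq0 : -p ≠ 0 := neg_ne_zero.2 hp0
  have hpU : p ∈ U ∩ Metric.ball 0 ρ := hδU (by rw [mem_ball_zero_iff, hpn]; exact htδ)
  have hqU : -p ∈ U ∩ Metric.ball 0 ρ := hδU (by rw [mem_ball_zero_iff, norm_neg, hpn]; exact htδ)
  have h1 := hL'.dist_le_mul p hpU (-p) hqU
  rw [dist_eq_norm, dist_eq_norm] at h1
  have h2 : ‖p - -p‖ = 2 * t := by
    rw [sub_neg_eq_add, ← two_smul ℝ p, norm_smul, hpn]; simp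
  have h3 := (iteratedFDeriv ℝ 1 u0 p - iteratedFDeriv ℝ 1 u0 (-p)).le_opNorm
    (fun _ => EuclideanSpace.single 0 1)
  rw [sub_apply, iteratedFDeriv_one_apply, iteratedFDeriv_one_apply,
    fderiv_u0 hp0, fderiv_u0 hq0, log_N, log_N, norm_neg, hpn, N_eq, N_eq, norm_neg, hpn] at h3
  simp [hp] at h3
  rw [h2] at h1
  have h4 := h3.trans h1
  have h5 : (1 + 2 * t * (2 * Real.log t) + t ^ 2 * (2 * t / t ^ 2) -
      (1 + -(2 * t * (2 * Real.log t)) + t ^ 2 * (-(2 * t) / t ^ 2))) =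
      t * (8 * Real.log t + 4) := by
    field_simp; ring
  rw [h5, abs_mul, abs_of_pos ht0] at h4
  have h6 : |8 * Real.log t + 4| ≤ C * 2 := by
    by_contra hcon
    push Not at hcon
    nlinarith
  have h7 := (abs_le.1 h6).1
  have h8 : (0 : ℝ) ≤ C := C.2
  linarith

/-- The negation of the preceding statement: For all n≥2, k, open connected Ω⊆ℝⁿ, and linear elliptic systems with a locally Lipschitz a.e. solution u whose a.e. Jacobian equals a nonvanishing J: if A,B,c,J are C^{k,1} then u is C^{k+1,1}, and if A,B,c,J are C^{k+1} then u is C^{k+2}. -/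
theorem result :
    ¬ (∀ (n : ℕ), 2 ≤ n → ∀ (k : ℕ) (Ω : Set (EuclideanSpace ℝ (Fin n))), IsOpen Ω → IsConnected Ω →
  ∀ (A : Fin n → Fin n → Fin n → EuclideanSpace ℝ (Fin n) → ℝ)
    (B : Fin n → Fin n → EuclideanSpace ℝ (Fin n) → ℝ)
    (c : Fin n → EuclideanSpace ℝ (Fin n) → ℝ)
    (u : Fin n → EuclideanSpace ℝ (Fin n) → ℝ)
    (J : EuclideanSpace ℝ (Fin n) → ℝ),
  (∀ x ∈ Ω, ∀ ξ : Fin n → ℝ, ξ ≠ 0 →
      (Matrix.of fun i l => ∑ j, ξ j * A j i l x).det ≠ 0) →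
  (∀ i, ∀ x ∈ Ω, ∃ C : NNReal, ∃ U ∈ nhds x, LipschitzOnWith C (u i) (U ∩ Ω)) →
  (∀ᵐ x ∂(volume.restrict Ω), ∀ i,
      ∑ j, ∑ l, A j i l x * fderiv ℝ (u l) x (EuclideanSpace.single j 1)
        + ∑ l, B i l x * u l x = c i x) →
  (∀ x ∈ Ω, J x ≠ 0) →
  (∀ᵐ x ∂(volume.restrict Ω),
      (Matrix.of fun i j => fderiv ℝ (u i) x (EuclideanSpace.single j 1)).det = J x) →
  (((∀ j i l, ContDiffOn ℝ k (A j i l) Ω ∧ ∀ x ∈ Ω, ∃ C : NNReal, ∃ U ∈ nhds x,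
        LipschitzOnWith C (iteratedFDeriv ℝ k (A j i l)) (U ∩ Ω)) ∧
    (∀ i l, ContDiffOn ℝ k (B i l) Ω ∧ ∀ x ∈ Ω, ∃ C : NNReal, ∃ U ∈ nhds x,
        LipschitzOnWith C (iteratedFDeriv ℝ k (B i l)) (U ∩ Ω)) ∧
    (∀ i, ContDiffOn ℝ k (c i) Ω ∧ ∀ x ∈ Ω, ∃ C : NNReal, ∃ U ∈ nhds x,
        LipschitzOnWith C (iteratedFDeriv ℝ k (c i)) (U ∩ Ω)) ∧
    (ContDiffOn ℝ k J Ω ∧ ∀ x ∈ Ω, ∃ C : NNReal, ∃ U ∈ nhds x,
        LipschitzOnWith C (iteratedFDeriv ℝ k J) (U ∩ Ω)) →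
    ∀ i, ContDiffOn ℝ (k + 1) (u i) Ω ∧ ∀ x ∈ Ω, ∃ C : NNReal, ∃ U ∈ nhds x,
        LipschitzOnWith C (iteratedFDeriv ℝ (k + 1) (u i)) (U ∩ Ω)) ∧
   ((∀ j i l, ContDiffOn ℝ (k + 1) (A j i l) Ω) ∧
    (∀ i l, ContDiffOn ℝ (k + 1) (B i l) Ω) ∧
    (∀ i, ContDiffOn ℝ (k + 1) (c i) Ω) ∧
    ContDiffOn ℝ (k + 1) J Ω →
    ∀ i, ContDiffOn ℝ (k + 2) (u i) Ω))) := by
  -- Witness: dimension 4, a perturbed quaternion operator with coefficients of class C^1,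
  -- no lower order term (B = 0), no right-hand side (c = 0), Jacobian identically 1,
  -- and a classical C^1 solution that is not C^2.
  intro H
  obtain ⟨Ω, A, B, u, h1, h2, h3, h4, h5, -, h7, -, -, hX, i, -, hi⟩ :=
    Pool.Agent.Lib.MP_4bee3f_an.K.big 0 (by decide) (by decide) (by decide) (by decide)
      (by decide) (by decide) Pool.Agent.Lib.MP_4bee3f_an.K.cst4
  refine hi ((H 4 (by norm_num) 0 Ω h1 h2 (fun j i l x => A j x i l) (fun _ _ _ => 0)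
    (fun _ _ => 0) u (fun _ => 1) (fun x hx ξ hξ => ?_) (fun l x hx => ?_) ?_
    (fun _ _ => one_ne_zero) ?_).2
    ⟨fun j i l => (h7 j i l).1, fun _ _ => contDiffOn_const, fun _ => contDiffOn_const,
      contDiffOn_const⟩ i)
  · have e : (Matrix.of fun i l => ∑ j, ξ j * A j x i l) = ∑ j, ξ j • A j x := by
      ext i l
      simp [Matrix.sum_apply]
    rw [e]
    exact h3 x hx ξ hξ
  · have hc : ContDiffAt ℝ 1 (u l) x := by
      simpa using (h4 l).contDiffAt (h1.mem_nhds hx)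
    obtain ⟨C, U, hU, hL⟩ := hc.exists_lipschitzOnWith
    exact ⟨C, U, hU, hL.mono Set.inter_subset_left⟩
  · refine (ae_restrict_mem h1.measurableSet).mono fun x hx i => ?_
    have := h5 x hx i
    rw [(hX x hx).1] at this
    simpa [Pool.Agent.Lib.MP_4bee3f_an.K.pd] using this
  · exact (ae_restrict_mem h1.measurableSet).mono fun x hx => (hX x hx).2


end Pool.Agent.S04606
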