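import Pool.Statements.S04674
import Pool.Agent.Lib.MP_51da40_an.Basic

set_option autoImplicit false
open Pool Pool.MP_51da40_an

namespace Pool.Agent.S04674

/-- The negation of the preceding statement: For every c>0 and ε>0, for all large n, every monic complex polynomial of degree n has at most εn connected components of {∣f∣≤1} with diameter greater than 1+c. -/
theorem result :
    ¬ (∀ c : ℝ, 0 < c → ∀ ε : ℝ, 0 < ε → ∃ N : ℕ, ∀ n : ℕ, N ≤ n →
      ∀ f : Polynomial ℂ, f.Monic → f.natDegree = n →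
        ∀ s : Finset (Set ℂ),
          (∀ C ∈ s, (∃ z : ℂ, ‖f.eval z‖ ≤ 1 ∧
              connectedComponentIn {w : ℂ | ‖f.eval w‖ ≤ 1} z = C) ∧
            1 + c < Metric.diam C) →
          (s.card : ℝ) ≤ ε * (n : ℝ)) := by
  intro h
  obtain ⟨L, hL, hs⟩ := Pool.Agent.Lib.MP_51da40_an.many_components
  have hLR : (0 : ℝ) < L := by exact_mod_cast hL
  obtain ⟨N, hN⟩ := h (1 / 10) (by norm_num) (1 / (4 * L)) (by positivity)
  obtain ⟨s, hcard, hs'⟩ := hs (N + 1) (Nat.succ_pos N)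
  have hk : 0 < (N + 1) * L := Nat.mul_pos (Nat.succ_pos N) hL
  have h1 := hN (3 * ((N + 1) * L)) (by nlinarith) _
    (Pool.Agent.Lib.MP_51da40_an.lem_monic _ hk)
    (Pool.Agent.Lib.MP_51da40_an.lem_natDegree _) s hs'
  rw [hcard] at h1
  have h2 : 1 / (4 * (L : ℝ)) * ((3 * ((N + 1) * L) : ℕ) : ℝ) = 3 / 4 * ((N + 1 : ℕ) : ℝ) := by
    push_cast; field_simp
  rw [h2] at h1
  have h3 : (0 : ℝ) < ((N + 1 : ℕ) : ℝ) := by positivity
  linarith

end Pool.Agent.S04674
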