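import Pool.Statements.S04695
import Pool.Agent.Lib.MP_540347_an.Harm


set_option autoImplicit false
open Pool Pool.MP_540347_an
open Pool.Agent.Lib.MP_540347_an

namespace Pool.Agent.S04695

lemma add_rpow_le {p t x θ : ℝ} (hp : 0 ≤ p) (ht : 0 < t) (hx : 0 ≤ x) (hθ : 0 ≤ θ) :
    (x + θ) ^ p ≤ ((1 + t) * x) ^ p + ((1 + 1 / t) * θ) ^ p := by
  have h1 : 0 ≤ ((1 + t) * x) ^ p := by positivity
  have h2 : 0 ≤ ((1 + 1 / t) * θ) ^ p := by positivity
  rcases le_total θ (t * x) with h | h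
  · have : (x + θ) ^ p ≤ ((1 + t) * x) ^ p :=
      Real.rpow_le_rpow (by positivity) (by linarith) hp
    linarith
  · have h3 : x ≤ 1 / t * θ := by
      rw [one_div, inv_mul_eq_div, le_div_iff₀ ht]; linarith
    have : (x + θ) ^ p ≤ ((1 + 1 / t) * θ) ^ p :=
      Real.rpow_le_rpow (by positivity) (by linarith) hp
    linarith

/-- For every 1<p<∞ and every 0≤c<max(p,p/(p−1))−1, some Hilbert-valued harmonic u,v on a domain with ∣∇v∣≤∣∇u∣ and ∣v(x₀)∣≤∣u(x₀)∣ have harmonic-measure p-norm of v exceeding c times that of u. -/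
theorem result :
    ∀ p : ℝ, 1 < p → ∀ c : ℝ, 0 ≤ c → c < max p (p / (p - 1)) - 1 →
      ∃ (n : ℕ) (H : Type) (_ : NormedAddCommGroup H) (_ : InnerProductSpace ℝ H)
        (_ : CompleteSpace H)
        (D : Set (EuclideanSpace ℝ (Fin n))) (x₀ : EuclideanSpace ℝ (Fin n))
        (u v : EuclideanSpace ℝ (Fin n) → H),
        IsOpen D ∧ IsConnected D ∧ x₀ ∈ D ∧
        InnerProductSpace.HarmonicOnNhd u D ∧ InnerProductSpace.HarmonicOnNhd v D ∧
        (∀ x ∈ D,
          ∑ i : Fin n, ‖fderiv ℝ v x (EuclideanSpace.single i (1 : ℝ))‖ ^ 2 ≤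
            ∑ i : Fin n, ‖fderiv ℝ u x (EuclideanSpace.single i (1 : ℝ))‖ ^ 2) ∧
        ‖v x₀‖ ≤ ‖u x₀‖ ∧
        ∃ h : EuclideanSpace ℝ (Fin n) → ℝ,
          InnerProductSpace.HarmonicOnNhd h D ∧ (∀ x ∈ D, ‖u x‖ ^ p ≤ h x) ∧
          ∃ ε : ℝ, 0 < ε ∧
            ∀ g : EuclideanSpace ℝ (Fin n) → ℝ,
              InnerProductSpace.HarmonicOnNhd g D →
              (∀ x ∈ D, ‖v x‖ ^ p ≤ g x) →
              c ^ p * h x₀ + ε ≤ g x₀ := by
  intro p hp c hc0 hc
  have hp0 : 0 < p := by linarith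
  obtain ⟨c₁, hc₁, hc₂⟩ := exists_between hc
  have hc₁0 : 0 < c₁ := lt_of_le_of_lt hc0 hc₁
  obtain ⟨t, ht0, ht⟩ : ∃ t : ℝ, 0 < t ∧ c * (1 + t) ^ 2 ≤ c₁ := by
    have hcont : Continuous (fun t : ℝ => c * (1 + t) ^ 2) := by fun_prop
    have h0 : c * (1 + (0 : ℝ)) ^ 2 < c₁ := by simpa using hc₁
    have h1 : ∀ᶠ t : ℝ in nhdsWithin 0 (Set.Ioi 0), c * (1 + t) ^ 2 < c₁ :=
      nhdsWithin_le_nhds (hcont.continuousAt.eventually (gt_mem_nhds h0))
    obtain ⟨t, h3, h4⟩ := (h1.and self_mem_nhdsWithin).exists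
    exact ⟨t, h4, h3.le⟩
  have hlam : 1 < (1 + t) ^ 2 := by nlinarith
  obtain ⟨β, hβ0, hβ⟩ := exists_adm hlam hp hc₁0 hc₂
  set κ : ℝ := 1 / (1 + t) with hκ
  have hκ0 : 0 < κ := by positivity
  have hκ1 : κ ≤ 1 := by rw [hκ, div_le_one (by linarith)]; linarith
  have hκp : 0 < κ ^ p := by positivity
  obtain ⟨θ, hθ0, hθ⟩ : ∃ θ : ℝ, 0 < θ ∧
      c ^ p * (((1 + 1 / t) * θ) ^ p + 2 * θ) ≤ κ ^ p * β / 2 := by
    have := Real.continuous_rpow_const hp0.le
    have hcont : Continuous (fun θ : ℝ => c ^ p * (((1 + 1 / t) * θ) ^ p + 2 * θ)) := by fun_prop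
    have h0 : c ^ p * (((1 + 1 / t) * (0 : ℝ)) ^ p + 2 * 0) < κ ^ p * β / 2 := by
      rw [mul_zero, Real.zero_rpow hp0.ne']
      simp only [mul_zero, add_zero]
      positivity
    have h1 : ∀ᶠ θ : ℝ in nhdsWithin 0 (Set.Ioi 0),
        c ^ p * (((1 + 1 / t) * θ) ^ p + 2 * θ) < κ ^ p * β / 2 :=
      nhdsWithin_le_nhds (hcont.continuousAt.eventually (gt_mem_nhds h0))
    obtain ⟨θ, h3, h4⟩ := (h1.and self_mem_nhdsWithin).exists
    exact ⟨θ, h4, h3.le⟩
  obtain ⟨F, G, ⟨hF, hG, m, a, M, hσ, hsub⟩, h0, hav⟩ := hβ (θ ^ 2) (by positivity)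
  let U : Fin (m + 1) → ℂ → ℂ := Fin.cons F (fun j z => (a j : ℂ) * z ^ (M j + 1))
  let W : Fin (m + 1) → ℂ → ℂ := Fin.cons (fun z => (κ : ℂ) * G z) (fun _ _ => 0)
  have hU : ∀ i, Differentiable ℂ (U i) := by
    intro i
    refine Fin.cases ?_ (fun j => ?_) i
    · exact hF
    · simp only [U, Fin.cons_succ]; fun_prop
  have hW : ∀ i, Differentiable ℂ (W i) := by
    intro i
    refine Fin.cases ?_ (fun j => ?_) i
    · simp only [W, Fin.cons_zero]; fun_prop
    · simp only [W, Fin.cons_succ]; fun_prop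
  have hWn : ∀ z, ‖vecC W z‖ = κ * |(G z).re| := by
    intro z
    have := vecC_norm_sq W z
    simp only [Fin.sum_univ_succ, W, Fin.cons_zero, Fin.cons_succ, Complex.re_ofReal_mul,
      Complex.zero_re] at this
    refine (pow_left_inj₀ (norm_nonneg _) (by positivity) two_ne_zero).1 ?_
    rw [this, mul_pow, mul_pow, sq_abs]
    simp
  have hUl : ∀ z, |(F z).re| ≤ ‖vecC U z‖ := by
    intro z
    have := vecC_norm_sq U z
    simp only [Fin.sum_univ_succ, U, Fin.cons_zero, Fin.cons_succ] at this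
    refine (pow_le_pow_iff_left₀ (abs_nonneg _) (norm_nonneg _) two_ne_zero).1 ?_
    rw [this, sq_abs]
    exact le_add_of_nonneg_right (Finset.sum_nonneg (fun j _ => sq_nonneg _))
  have hUu : ∀ z : ℂ, ‖z‖ = 1 → ‖vecC U z‖ ≤ |(F z).re| + θ := by
    intro z hz
    have := vecC_norm_sq U z
    simp only [Fin.sum_univ_succ, U, Fin.cons_zero, Fin.cons_succ] at this
    refine (pow_le_pow_iff_left₀ (norm_nonneg _) (by positivity) two_ne_zero).1 ?_
    have h1 : ∑ j : Fin m, ((a j : ℂ) * z ^ (M j + 1)).re ^ 2 ≤ ∑ j, a j ^ 2 := by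
      refine Finset.sum_le_sum (fun j _ => ?_)
      have h2 := Complex.abs_re_le_norm ((a j : ℂ) * z ^ (M j + 1))
      rw [norm_mul, norm_pow, hz, one_pow, mul_one, Complex.norm_real, Real.norm_eq_abs] at h2
      exact sq_le_sq.2 h2
    rw [this, add_sq, sq_abs]
    have : 0 ≤ 2 * |(F z).re| * θ := by positivity
    linarith
  have hrp := Real.continuous_rpow_const hp0.le
  have hUc := vecC_cont hU
  have hWc := vecC_cont hW
  have hFc := hF.continuous
  have hGc := hG.continuous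
  have hωc : Continuous (fun z => ‖vecC U z‖ ^ p) := by fun_prop
  obtain ⟨A, hA, -, hAω⟩ := approx _ hωc hθ0
  have hAc := hA.continuous
  refine ⟨2, EuclideanSpace ℝ (Fin (m + 1)), inferInstance, inferInstance, inferInstance,
    Metric.ball 0 1, 0, fun x => vecC U (iot x), fun x => vecC W (iot x), Metric.isOpen_ball,
    (convex_ball _ _).isConnected (Metric.nonempty_ball.2 one_pos), Metric.mem_ball_self one_pos,
    fun x _ => harmonicAt_comp_isometry iot (vecC_harm hU _),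
    fun x _ => harmonicAt_comp_isometry iot (vecC_harm hW _), fun x hx => ?_, ?_,
    fun x => (A (iot x) + θ).re, fun x _ => ?_, fun x hx => ?_, κ ^ p * β / 2, by positivity,
    fun g hg hgv => ?_⟩
  · rw [grad_vec hU, grad_vec hW]
    have hz : ‖iot x‖ ≤ 1 := by
      rw [iot.norm_map]; exact (mem_ball_zero_iff.1 hx).le
    set z := iot x
    have h1 := hsub z hz
    simp only [Fin.sum_univ_succ, U, W, Fin.cons_zero, Fin.cons_succ]
    have d1 : deriv (fun z => (κ : ℂ) * G z) z = κ * deriv G z :=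
      ((hG z).hasDerivAt.const_mul _).deriv
    have d2 : ∀ j, ‖deriv (fun z => (a j : ℂ) * z ^ (M j + 1)) z‖ ^ 2
        = (a j * (M j + 1) * ‖z‖ ^ (M j)) ^ 2 := by
      intro j
      rw [((hasDerivAt_pow (M j + 1) z).const_mul (a j : ℂ)).deriv]
      simp only [norm_mul, Complex.norm_real, Real.norm_eq_abs, mul_pow, sq_abs, norm_pow,
        Complex.norm_natCast, Nat.add_sub_cancel]
      push_cast
      ring
    simp only [d1, d2, deriv_const', norm_zero, norm_mul, Complex.norm_real, Real.norm_eq_abs,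
      mul_pow, sq_abs] at h1 ⊢
    have hS : 0 ≤ ∑ j, a j ^ 2 * ((M j : ℝ) + 1) ^ 2 * (‖z‖ ^ (M j)) ^ 2 :=
      Finset.sum_nonneg (fun j _ => by positivity)
    set S := ∑ j, a j ^ 2 * ((M j : ℝ) + 1) ^ 2 * (‖z‖ ^ (M j)) ^ 2
    have h2 : κ ^ 2 * (1 + t) ^ 2 = 1 := by rw [hκ]; field_simp
    have h3 : κ ^ 2 ≤ 1 := pow_le_one₀ hκ0.le hκ1
    have h4 := mul_le_mul_of_nonneg_left h1 (sq_nonneg κ)
    have h5 : κ ^ 2 * S ≤ 1 * S := mul_le_mul_of_nonneg_right h3 hS
    rw [mul_add, ← mul_assoc, h2] at h4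
    simp only [ne_eq, OfNat.ofNat_ne_zero, not_false_eq_true, zero_pow, Finset.sum_const_zero,
      add_zero]
    linarith
  · simp only [map_zero]
    rw [hWn]
    have := hUl 0
    have h1 : κ * |(G 0).re| ≤ 1 * |(G 0).re| := mul_le_mul_of_nonneg_right hκ1 (abs_nonneg _)
    linarith
  · have hd : Differentiable ℂ (fun z => A z + θ) := by fun_prop
    exact harmonicAt_comp_isometry iot (f := fun z => (A z + θ).re)
      (hd.analyticAt _).harmonicAt_re
  · have hd : Differentiable ℂ (fun z => A z + θ) := by fun_prop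
    refine majorant hU hp.le hd (fun z hz => ?_) ?_
    · have := (abs_le.1 (hAω z hz)).2
      simp only [Complex.add_re, Complex.ofReal_re]
      linarith
    · rw [iot.norm_map]; exact (mem_ball_zero_iff.1 hx).le
  · have hl := lower_bound (φ := fun z => ‖vecC W z‖ ^ p) (by fun_prop) hg hgv
    simp only [map_zero, Complex.add_re, Complex.ofReal_re]
    rw [← av_re_entire hA]
    have hVc := V_cont c₁ hp0
    have key : av (fun z => c ^ p * (A z).re + κ ^ p * V p c₁ ((F z).re, (G z).re))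
        ≤ av (fun z => ‖vecC W z‖ ^ p + c ^ p * (((1 + 1 / t) * θ) ^ p + θ)) := by
      refine av_mono (by fun_prop) (by fun_prop) (fun z hz => ?_)
      have e1 := (abs_le.1 (hAω z hz)).1
      have e2 : ‖vecC U z‖ ^ p ≤ (|(F z).re| + θ) ^ p :=
        Real.rpow_le_rpow (norm_nonneg _) (hUu z hz) hp0.le
      have e3 := add_rpow_le hp0.le ht0 (abs_nonneg (F z).re) hθ0.le
      have e4 : c ^ p * ((1 + t) * |(F z).re|) ^ p ≤ κ ^ p * (c₁ ^ p * |(F z).re| ^ p) := by
        rw [← Real.mul_rpow hc0 (by positivity), ← Real.mul_rpow hc₁0.le (abs_nonneg _),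
          ← Real.mul_rpow hκ0.le (by positivity)]
        refine Real.rpow_le_rpow (by positivity) ?_ hp0.le
        rw [← mul_assoc, ← mul_assoc]
        refine mul_le_mul_of_nonneg_right ?_ (abs_nonneg _)
        rw [hκ, one_div, inv_mul_eq_div, le_div_iff₀ (by linarith)]
        linarith
      have hcp : 0 ≤ c ^ p := by positivity
      have e5 : c ^ p * (A z).re ≤ c ^ p * (((1 + t) * |(F z).re|) ^ p +
          ((1 + 1 / t) * θ) ^ p + θ) := mul_le_mul_of_nonneg_left (by linarith) hcp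
      rw [hWn, Real.mul_rpow hκ0.le (abs_nonneg _)]
      unfold V
      simp only
      linarith
    rw [av_add (by fun_prop) (by fun_prop), av_add (by fun_prop) continuous_const, av_const,
      av_mul, av_mul] at key
    have h5 := mul_le_mul_of_nonneg_left hav hκp.le
    linarith

end Pool.Agent.S04695
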