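import Pool.Statements.S04785
import Pool.Agent.Lib.MP_5d54af_an.Main

set_option autoImplicit false
open scoped BigOperators
open Pool Pool.MP_5d54af_an

namespace Pool.Agent.S04785

/-- If f(z)=Σ a_k z^k converges everywhere, never vanishes and is nonconstant, then for every ε>0 some partial sum Σ_{k≤n} a_k z^k vanishes at a point z₀ where ∣f(z₀)∣<ε. -/
theorem result :
    ∀ (a : ℕ → ℂ) (f : ℂ → ℂ),
      (∀ z : ℂ, HasSum (fun k : ℕ => a k * z ^ k) (f z)) →
      (∀ z : ℂ, f z ≠ 0) →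
      (∃ z w : ℂ, f z ≠ f w) →
      ∀ ε : ℝ, 0 < ε →
        ∃ z₀ : ℂ, ∃ n : ℕ,
          (∑ k ∈ Finset.range (n + 1), a k * z₀ ^ k) = 0 ∧ ‖f z₀‖ < ε := by
  intro a f h hne hnc ε hε
  exact Pool.Agent.Lib.MP_5d54af_an.main a f h hne hnc ε hε

end Pool.Agent.S04785
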