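import Pool.Statements.S04792
import Pool.Agent.Lib.MP_5d7bff_an.Main

set_option autoImplicit false
open MeasureTheory
open Pool Pool.MP_5d7bff_an

namespace Pool.Agent.S04792

/-- The negation of the preceding statement: For 0<p<1, every real Banach space that linearly embeds into L_p[0,1] with two-sided norm bounds also linearly embeds into L_1[0,1] with two-sided norm bounds. -/
theorem result :
    ¬ (∀ (p : ℝ), 0 < p → p < 1 →
    ∀ (X : Type) [NormedAddCommGroup X] [NormedSpace ℝ X] [CompleteSpace X],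
      (∃ (T : X →ₗ[ℝ] (ℝ → ℝ)) (c C : ℝ), 0 < c ∧ 0 < C ∧ ∀ x : X,
        AEStronglyMeasurable (T x) (volume.restrict (Set.Icc (0:ℝ) 1)) ∧
        ENNReal.ofReal (c * ‖x‖) ≤
          eLpNorm (T x) (ENNReal.ofReal p) (volume.restrict (Set.Icc (0:ℝ) 1)) ∧
        eLpNorm (T x) (ENNReal.ofReal p) (volume.restrict (Set.Icc (0:ℝ) 1)) ≤
          ENNReal.ofReal (C * ‖x‖)) →
      (∃ (S : X →ₗ[ℝ] (ℝ → ℝ)) (c C : ℝ), 0 < c ∧ 0 < C ∧ ∀ x : X,
        AEStronglyMeasurable (S x) (volume.restrict (Set.Icc (0:ℝ) 1)) ∧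
        ENNReal.ofReal (c * ‖x‖) ≤
          eLpNorm (S x) 1 (volume.restrict (Set.Icc (0:ℝ) 1)) ∧
        eLpNorm (S x) 1 (volume.restrict (Set.Icc (0:ℝ) 1)) ≤
          ENNReal.ofReal (C * ‖x‖))) := by
  intro H
  obtain ⟨T, c, hc, hm, hT⟩ := Lib.MP_5d7bff_an.exists_embedding
  let _ := Lib.MP_5d7bff_an.NN.toAddGroupSeminorm.toSeminormedAddCommGroup
  let _ : NormedSpace ℝ Lib.MP_5d7bff_an.VV :=
    ⟨fun a x => (map_smul_eq_mul Lib.MP_5d7bff_an.NN a x).le⟩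
  obtain ⟨S, c', C', hc', hC', hS⟩ := Lib.MP_5d7bff_an.transfer _ T hc (by norm_num) hm hT
    (H (1 / 2) (by norm_num) (by norm_num) _)
  exact Lib.MP_5d7bff_an.not_embed S hc' hC' hS

end Pool.Agent.S04792
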