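import Pool.Statements.S05370
import Pool.Agent.Lib.MP_8ec070_an.Tower
import Pool.Agent.Lib.MP_8ec070_an.Ana

set_option autoImplicit false
open Pool Pool.MP_8ec070_an

namespace Pool.Agent.S05370

/-- The negation of the preceding statement: For every ε>0 and 0≤δ<2ε there is a finite A such that, for all Schwartz f on the plane and all nonnegative locally integrable weights φ, ∫∣S^ε f∣²φ ≤ A∫∣f∣² M_δφ, where S^ε is the Bochner–Riesz operator and M_δ the rotated-kernel (δ=0: ray) maximal function. -/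
theorem result :
    ¬ (∀ ε δ : ℝ, 0 < ε → 0 ≤ δ → δ < 2 * ε →
  ∃ A : NNReal, ∀ (f : SchwartzMap (EuclideanSpace ℝ (Fin 2)) ℂ)
    (φ : EuclideanSpace ℝ (Fin 2) → ℝ),
    (∀ x, 0 ≤ φ x) → MeasureTheory.LocallyIntegrable φ MeasureTheory.volume →
    ∫⁻ x, ENNReal.ofReal
        (‖∫ ξ, (((max (1 - ‖ξ‖ ^ 2) 0) ^ ε : ℝ) : ℂ) *
            ((∫ y, Complex.exp (((-2 * Real.pi * @inner ℝ _ _ y ξ : ℝ) : ℂ) * Complex.I) * f y) *
              Complex.exp (((2 * Real.pi * @inner ℝ _ _ x ξ : ℝ) : ℂ) * Complex.I))‖ ^ 2 * φ x)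
      ≤ (A : ENNReal) * ∫⁻ x, ENNReal.ofReal (‖f x‖ ^ 2) *
        (if δ = 0 then
          ⨆ (ω : EuclideanSpace ℝ (Fin 2)) (_ : ‖ω‖ = 1) (r : ℝ) (_ : 0 < r),
            ENNReal.ofReal (2 / r ^ 2) *
              ∫⁻ s in Set.Ioc (0 : ℝ) r, ENNReal.ofReal (φ (x - s • ω) * s)
        else
          ⨆ (u : EuclideanSpace ℝ (Fin 2)) (_ : ‖u‖ = 1) (r : ℝ) (_ : 0 < r),
            ENNReal.ofReal (1 / r ^ 2) *
              ∫⁻ y in Metric.closedBall (0 : EuclideanSpace ℝ (Fin 2)) r,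
                ENNReal.ofReal (δ * ‖(‖y‖⁻¹) • y - u‖ ^ (δ - 1) * φ (x - y)))) := by
  intro h
  obtain ⟨ε, hε, hA⟩ :=
    Pool.Agent.MT8.exists_not_ineq (Pool.Agent.MT8.good_of_tower Pool.Agent.MT8.tower)
  obtain ⟨A, h⟩ := h ε 0 hε le_rfl (by linarith)
  refine hA A fun f φ h1 h2 => ?_
  have := h f φ h1 h2
  simp only [if_true] at this
  exact this

end Pool.Agent.S05370
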