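import Pool.Statements.S05479
import Pool.Agent.Lib.MP_9721b5_an.All

set_option autoImplicit false
open MeasureTheory Filter
open scoped ENNReal
open Pool Pool.MP_9721b5_an

namespace Pool.Agent.S05479

/-- For every measure-preserving map T of a probability space and all essentially bounded real f, g, h, for almost every x the averages (1/N) sum over n from 1 to N of f(T^n x) g(T^{2n} x) h(T^{3n} x) converge. -/
theorem result :
    ∀ (X : Type) [MeasurableSpace X] (μ : Measure X) [IsProbabilityMeasure μ] (T : X → X),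
      MeasurePreserving T μ μ →
      ∀ f g h : X → ℝ, MemLp f ⊤ μ → MemLp g ⊤ μ → MemLp h ⊤ μ →
        ∀ᵐ x ∂μ, ∃ L : ℝ,
          Tendsto (fun N : ℕ => (N : ℝ)⁻¹ *
              ∑ n ∈ Finset.Icc 1 N, f (T^[n] x) * g (T^[2 * n] x) * h (T^[3 * n] x))
            atTop (nhds L) :=
  Pool.Agent.Lib.MP_9721b5_an.mainStmt

end Pool.Agent.S05479
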