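import Pool.Statements.S05648
import Pool.Agent.Lib.MP_a271d0_an.Shell

set_option autoImplicit false
open MeasureTheory Filter Topology
open Pool Pool.MP_a271d0_an
open Pool.Agent.Lib.MP_a271d0_an

namespace Pool.Agent.S05648

/-- The negation of the preceding statement: For every N≥3, smooth bounded domain Ω in R^N with 0 on its boundary, s in (0,2) and 2*(s)-1<p<(N+2)/(N-2), there is an H^1_0 function u>0 on Ω weakly solving Δu - u^p + u^(2*(s)-1)/∣x∣^s = 0. -/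
theorem result :
    ¬ (∀ (N : ℕ), 3 ≤ N →
  ∀ (Ω : Set (EuclideanSpace ℝ (Fin N))),
    IsOpen Ω → IsConnected Ω → Bornology.IsBounded Ω →
    (∃ ρ : EuclideanSpace ℝ (Fin N) → ℝ,
        ContDiff ℝ ((⊤ : ℕ∞) : WithTop ℕ∞) ρ ∧ Ω = {x | ρ x < 0} ∧
        ∀ x ∈ frontier Ω, fderiv ℝ ρ x ≠ 0) →
    (0 : EuclideanSpace ℝ (Fin N)) ∈ frontier Ω →
  ∀ s : ℝ, 0 < s → s < 2 →
  ∀ p : ℝ, 2 * ((N : ℝ) - s) / ((N : ℝ) - 2) - 1 < p →
    p < ((N : ℝ) + 2) / ((N : ℝ) - 2) →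
  ∃ u : EuclideanSpace ℝ (Fin N) → ℝ,
  ∃ G : EuclideanSpace ℝ (Fin N) → EuclideanSpace ℝ (Fin N),
    MemLp u 2 volume ∧ MemLp G 2 volume ∧
    (∃ φ : ℕ → EuclideanSpace ℝ (Fin N) → ℝ,
        (∀ n, ContDiff ℝ ((⊤ : ℕ∞) : WithTop ℕ∞) (φ n) ∧
              HasCompactSupport (φ n) ∧ tsupport (φ n) ⊆ Ω) ∧
        Tendsto (fun n => eLpNorm (fun x => φ n x - u x) 2 volume) atTop (𝓝 0) ∧
        Tendsto (fun n => eLpNorm (fun x => gradient (φ n) x - G x) 2 volume)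
          atTop (𝓝 0)) ∧
    (∀ᵐ x ∂(volume : Measure (EuclideanSpace ℝ (Fin N))), x ∈ Ω → 0 < u x) ∧
    ∀ ψ : EuclideanSpace ℝ (Fin N) → ℝ,
      ContDiff ℝ ((⊤ : ℕ∞) : WithTop ℕ∞) ψ → HasCompactSupport ψ → tsupport ψ ⊆ Ω →
        Integrable (fun x => inner ℝ (G x) (gradient ψ x)) volume ∧
        Integrable (fun x => u x ^ p * ψ x) volume ∧
        Integrable (fun x => u x ^ (2 * ((N : ℝ) - s) / ((N : ℝ) - 2) - 1) * ψ x / ‖x‖ ^ s)
          volume ∧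
        ∫ x, (inner ℝ (G x) (gradient ψ x) + u x ^ p * ψ x
              - u x ^ (2 * ((N : ℝ) - s) / ((N : ℝ) - 2) - 1) * ψ x / ‖x‖ ^ s) = 0) := by
  -- Witness: N = 3, s = 1, p = 4 and a large spherical shell with the origin on its inner sphere.
  -- The boundary has negative mean curvature at the origin and the domain is not star-shaped.
  intro h
  set e : EuclideanSpace ℝ (Fin 3) := EuclideanSpace.single 0 1 with he
  have hen : ‖e‖ = 1 := by simp [he]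
  obtain ⟨ρ, h1, h2, h3⟩ := Shell.smooth ((1 : ℝ) • e) one_pos
  obtain ⟨R, hR, H⟩ := G.final volume Shell.par (Shell.isOpen _ _) (Shell.bdd _ _) h1 h2
    (h3 0 (Shell.zero_mem hen one_pos)) (Shell.zero_mem hen one_pos)
  obtain ⟨u, D, hu, hD, ⟨φ, hφ, h4, h5⟩, hpos, heq⟩ :=
    h 3 le_rfl {x | R < ‖x - R • e‖ ∧ ‖x - R • e‖ < 2 * R} (Shell.isOpen _ _) (Shell.conn _ hR)
      (Shell.bdd _ _) (Shell.smooth _ hR) (Shell.zero_mem hen hR) 1 one_pos one_lt_two 4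
      (by norm_num) (by norm_num)
  obtain ⟨φ', S⟩ := G.exists_H10 hu hD hφ h4 h5
  refine H R le_rfl u D φ' ?_
  rw [Shell.dilate e hR]
  refine ⟨S, hpos, fun ψ hψ => ?_⟩
  have := (heq ψ hψ.1 hψ.2.1 hψ.2.2).2.2.2
  simpa only [div_eq_mul_inv (_ * ψ _), ← Real.rpow_neg (norm_nonneg _)] using this

end Pool.Agent.S05648
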