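import Pool.Statements.S05794
import Pool.Agent.Lib.MP_ad3787_an.Final

set_option autoImplicit false
open Pool Pool.MP_ad3787_an

namespace Pool.Agent.S05794

/-- The negation of the preceding statement: For every compact L-regular K in C^d there is c>1 such that any Fekete arrays of order ceil(cn) form an admissible mesh: for some C, every polynomial of degree at most n bounded by 1 on the order-ceil(cn) array is bounded by C on K. -/
theorem result :
    ¬ (∀ (d : ℕ) (K : Set (Fin d → ℂ)), IsCompact K →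
      (∃ Φ : (Fin d → ℂ) → ℝ, Continuous Φ ∧ ∀ z : Fin d → ℂ,
        IsLUB {t : ℝ | t = 1 ∨ ∃ p : MvPolynomial (Fin d) ℂ, 1 ≤ p.totalDegree ∧
          (∀ x ∈ K, ‖MvPolynomial.eval x p‖ ≤ 1) ∧
          t = ‖MvPolynomial.eval z p‖ ^ ((1 : ℝ) / (p.totalDegree : ℝ))} (Φ z)) →
      ∃ c : ℝ, 1 < c ∧
        ∀ F : (N : ℕ) → {α : Fin d → ℕ // α ∈ Finset.filter (fun α : Fin d → ℕ => ∑ i, α i ≤ N)
              (Fintype.piFinset fun _ : Fin d => Finset.range (N + 1))} → (Fin d → ℂ),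
          (∀ N : ℕ, (∀ a, F N a ∈ K) ∧
            ∀ y : {α : Fin d → ℕ // α ∈ Finset.filter (fun α : Fin d → ℕ => ∑ i, α i ≤ N)
              (Fintype.piFinset fun _ : Fin d => Finset.range (N + 1))} → (Fin d → ℂ),
              (∀ a, y a ∈ K) →
              ‖(Matrix.of (fun a b : {α : Fin d → ℕ // α ∈ Finset.filter (fun α : Fin d → ℕ => ∑ i, α i ≤ N)
                  (Fintype.piFinset fun _ : Fin d => Finset.range (N + 1))} =>
                  ∏ i, y a i ^ (b.1 i))).det‖ ≤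
              ‖(Matrix.of (fun a b : {α : Fin d → ℕ // α ∈ Finset.filter (fun α : Fin d → ℕ => ∑ i, α i ≤ N)
                  (Fintype.piFinset fun _ : Fin d => Finset.range (N + 1))} =>
                  ∏ i, F N a i ^ (b.1 i))).det‖) →
          ∃ C : ℝ, ∀ n : ℕ, ∀ p : MvPolynomial (Fin d) ℂ, p.totalDegree ≤ n →
            (∀ a, ‖MvPolynomial.eval (F ⌈c * (n : ℝ)⌉₊ a) p‖ ≤ 1) →
            ∀ z ∈ K, ‖MvPolynomial.eval z p‖ ≤ C) := by
  intro H
  obtain ⟨K1, hK, hne, hreg, hbad⟩ := Pool.Agent.Lib.MP_ad3787_an.exists_bad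
  have hKc : IsCompact {y : Fin 1 → ℂ | y 0 ∈ K1} := by
    have h1 : {y : Fin 1 → ℂ | y 0 ∈ K1} = Set.univ.pi fun _ : Fin 1 => K1 := by
      ext y
      simp [Fin.forall_fin_one]
    rw [h1]
    exact isCompact_univ_pi fun _ => hK
  obtain ⟨c, hc, hF⟩ := H 1 {y | y 0 ∈ K1} hKc hreg
  choose x hx hx' using Pool.Agent.Lib.MP_ad3787_an.exists_fekete K1 hK hne
  obtain ⟨C, hC⟩ := hF (fun N a _ => x N (Pool.Agent.Lib.MP_ad3787_an.idxEquiv N a)) (by
    intro N
    refine ⟨fun a => hx N _, fun y hy => ?_⟩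
    rw [Pool.Agent.Lib.MP_ad3787_an.det_eq, Pool.Agent.Lib.MP_ad3787_an.det_eq]
    simp only [Equiv.apply_symm_apply]
    exact hx' N _ (fun t => hy _))
  obtain ⟨n, p, hp1, ⟨z, hz, hz'⟩, hp2⟩ := hbad c hc C
  have h1 := hC n (Pool.Agent.Lib.MP_ad3787_an.ofP p)
    ((Pool.Agent.Lib.MP_ad3787_an.totalDegree_ofP_le p).trans hp1) (fun a => by
      rw [Pool.Agent.Lib.MP_ad3787_an.eval_ofP]
      exact hp2 (x _) (hx _) (hx' _) _) (fun _ => z) hz
  rw [Pool.Agent.Lib.MP_ad3787_an.eval_ofP] at h1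
  linarith

end Pool.Agent.S05794
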