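import Pool.Statements.S06161
import Pool.Agent.Lib.MP_cbe5a6_an.Main

set_option autoImplicit false
open Pool Pool.MP_cbe5a6_an

namespace Pool.Agent.S06161

/-- For every smooth π-periodic real f of the angle (a smooth even function on the circle), the Gaussian-mollified six-linear circle form satisfies Λ(f,…,f) ≤ Λ(f²,f²,f²,1,1,1) up to any δ>0 for all small ε, i.e. in the limit of exact delta. -/
theorem result :
    ∀ L : ℝ → (Fin 6 → ℝ → ℝ) → ℝ,
      (∀ (ε : ℝ) (g : Fin 6 → ℝ → ℝ),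
        L ε g = (1 / 2 : ℝ) ^ 6 *
          ∫ θ in Set.pi Set.univ (fun _ : Fin 6 => Set.Icc (0 : ℝ) (2 * Real.pi)),
            ((Real.cos (θ 0) + Real.cos (θ 1) + Real.cos (θ 2)) ^ 2
                + (Real.sin (θ 0) + Real.sin (θ 1) + Real.sin (θ 2)) ^ 2 - 1)
            * ((1 / (Real.pi * ε ^ 2)) *
                Real.exp (-((∑ k : Fin 6, Real.cos (θ k)) ^ 2
                    + (∑ k : Fin 6, Real.sin (θ k)) ^ 2) / ε ^ 2))
            * ∏ j : Fin 6, g j (θ j)) →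
      ∀ f : ℝ → ℝ, ContDiff ℝ (⊤ : ℕ∞) f → Function.Periodic f Real.pi →
        ∀ δ : ℝ, 0 < δ → ∃ ε₀ : ℝ, 0 < ε₀ ∧ ∀ ε : ℝ, 0 < ε → ε < ε₀ →
          L ε (fun _ => f) ≤
            L ε (fun j t => if (j : ℕ) < 3 then f t ^ 2 else 1) + δ :=
  Pool.Agent.Lib.MP_cbe5a6_an.target

end Pool.Agent.S06161
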