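import Pool.Statements.S06431
import Pool.Agent.Lib.MP_dfc9b7_an.Main

set_option autoImplicit false
open Filter Topology
open Pool Pool.MP_dfc9b7_an

namespace Pool.Agent.S06431

/-- With γ the analytic capacity (sup of the limit of z·f(z) at infinity, in modulus, over f holomorphic off S with modulus at most 1), if compact K has γ(K)=0 then for every compact E the sup of γ(L) over compact L in E minus K equals γ(E). -/
theorem result :
    ∀ γ : Set ℂ → ℝ,
      (∀ S : Set ℂ, γ S = sSup {r : ℝ | ∃ f : ℂ → ℂ, ∃ a : ℂ,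
          DifferentiableOn ℂ f Sᶜ ∧ (∀ z ∈ Sᶜ, ‖f z‖ ≤ 1) ∧
          Tendsto (fun z => z * f z) (cocompact ℂ) (𝓝 a) ∧ r = ‖a‖}) →
      ∀ K : Set ℂ, IsCompact K → γ K = 0 →
        ∀ E : Set ℂ, IsCompact E →
          sSup {t : ℝ | ∃ L : Set ℂ, IsCompact L ∧ L ⊆ E \ K ∧ t = γ L} = γ E := by
  intro γ hγ K hK h0 E hE
  obtain rfl : γ = Pool.Agent.Lib.MP_dfc9b7_an.cap := funext hγ
  exact Pool.Agent.Lib.MP_dfc9b7_an.gs_eq_cap hK h0 hE

end Pool.Agent.S06431
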