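import Pool.Statements.S06528
import Pool.Agent.Lib.MP_e840b2_an.Main

set_option autoImplicit false
open Filter Topology
open Pool Pool.MP_e840b2_an

namespace Pool.Agent.S06528

/-- The negation of the preceding statement: For every λ in (1/2,1) whose reciprocal is a Salem number, the normalized Shannon entropy (1/n)·H of the law of the random sum ∑_{i<n} ±λ^i (fair independent signs) converges to log(1/λ). -/
theorem result :
    ¬ (∀ l : ℝ, 1 / 2 < l → l < 1 →
      (IsIntegral ℤ l⁻¹ ∧ 1 < l⁻¹ ∧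
        (∀ z ∈ (minpoly ℚ l⁻¹).aroots ℂ, z ≠ ((l⁻¹ : ℝ) : ℂ) → ‖z‖ ≤ 1) ∧
        (∃ z ∈ (minpoly ℚ l⁻¹).aroots ℂ, ‖z‖ = 1)) →
      Tendsto
        (fun n : ℕ =>
          (∑ x ∈ (Finset.univ : Finset (Fin n → Bool)).image
                (fun ε : Fin n → Bool =>
                  ∑ i : Fin n, (if ε i then (1 : ℝ) else -1) * l ^ (i : ℕ)),
              Real.negMulLog
                ((((Finset.univ : Finset (Fin n → Bool)).filter
                    (fun ε : Fin n → Bool =>
                      ∑ i : Fin n, (if ε i then (1 : ℝ) else -1) * l ^ (i : ℕ) = x)).card : ℝ)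
                  / 2 ^ n)) / (n : ℝ))
        atTop (𝓝 (Real.log l⁻¹))) := by
  intro h
  have h1 := h (Lib.MP_e840b2_an.bb)⁻¹ (by linarith [Lib.MP_e840b2_an.bb_inv_gt])
    (by linarith [Lib.MP_e840b2_an.bb_inv_lt])
    (by rw [inv_inv]; exact Lib.MP_e840b2_an.salem_bb)
  rw [inv_inv] at h1
  apply Lib.MP_e840b2_an.not_tendsto
  refine h1.congr fun n => ?_
  rw [Lib.MP_e840b2_an.H_eq_sum]
  congr 1
  apply Finset.sum_congr rfl
  intro x _
  congr 2
  simp

end Pool.Agent.S06528
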