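import Pool.Statements.S06628
import Pool.Agent.Lib.MP_efa496_an.Space

set_option autoImplicit false
open Pool Pool.MP_efa496_an

namespace Pool.Agent.S06628

/-- The negation of the preceding statement: For G a complex domain and P a Hausdorff locally convex uniformly stable ℂ[z]-module of holomorphic ℂ^q-valued functions with condition (3), every divisorial submodule of local rank k is saturated w.r.t. every f in P. -/
theorem result :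
    ¬ (∀ (G : Set ℂ), IsOpen G → IsConnected G →
 ∀ (q : ℕ), 1 ≤ q →
 ∀ (P : Submodule ℂ (ℂ → Fin q → ℂ)),
 (∀ f ∈ P, DifferentiableOn ℂ f G ∧ ∀ w ∉ G, f w = 0) →
 (∀ (p : Polynomial ℂ), ∀ f ∈ P, (fun w => p.eval w • f w) ∈ P) →
 ∀ (τ : TopologicalSpace ↥P),
 @T2Space ↥P τ → @IsTopologicalAddGroup ↥P τ _ → @ContinuousSMul ℂ ↥P _ _ τ →
 (∀ V ∈ @nhds ↥P τ 0, ∃ U ∈ @nhds ↥P τ 0, U ⊆ V ∧
   ∀ x ∈ U, ∀ y ∈ U, ∀ t : ℝ, 0 ≤ t → t ≤ 1 → (t : ℂ) • x + ((1 - t : ℝ) : ℂ) • y ∈ U) →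
 (∀ (p : Polynomial ℂ) (g : ↥P → ↥P),
   (∀ x : ↥P, ((g x : ↥P) : ℂ → Fin q → ℂ) = fun w => p.eval w • (x : ℂ → Fin q → ℂ) w) →
   @Continuous ↥P ↥P τ τ g) →
 (∀ V ∈ @nhds ↥P τ 0, ∃ U ∈ @nhds ↥P τ 0, ∀ (c : ℂ), ∀ x ∈ U, ∀ g : ℂ → Fin q → ℂ,
   DifferentiableOn ℂ g G → (∀ w ∉ G, g w = 0) →
   (∀ w ∈ G, (x : ℂ → Fin q → ℂ) w = (w - c) • g w) →
   ∃ y ∈ V, (y : ℂ → Fin q → ℂ) = g) →
 (∀ (n : ℕ) (F : Fin n → ↥P),
   (∀ g : ℂ → Fin q → ℂ, DifferentiableOn ℂ g G → (∀ w ∉ G, g w = 0) →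
     (∀ w ∈ G, ∀ i, ‖g w i‖ ≤ ∑ m, ‖(F m : ℂ → Fin q → ℂ) w i‖) → g ∈ P) ∧
   (∀ V ∈ @nhds ↥P τ 0, ∃ r : ℝ, 0 < r ∧ ∀ a : ℂ, r ≤ ‖a‖ → ∀ x : ↥P,
     (∀ w ∈ G, ∀ i, ‖(x : ℂ → Fin q → ℂ) w i‖ ≤ ∑ m, ‖(F m : ℂ → Fin q → ℂ) w i‖) →
     ∃ y ∈ V, x = a • y)) →
 ∀ (I : Submodule ℂ (ℂ → Fin q → ℂ)), I ≤ P →
 (∀ (p : Polynomial ℂ), ∀ f ∈ I, (fun w => p.eval w • f w) ∈ I) →
 (∀ f ∈ P, (∀ c ∈ G, ∃ (n : ℕ) (u : Fin n → ℂ → Fin q → ℂ) (h : Fin n → ℂ → ℂ),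
     (∀ m, u m ∈ I) ∧ (∀ m, AnalyticAt ℂ (h m) c) ∧
     ∀ᶠ w in nhds c, f w = ∑ m, h m w • u m w) → f ∈ I) →
 ∀ (k : ℕ),
 (∃ c ∈ G, ∃ (u : Fin k → ℂ → Fin q → ℂ) (J : Fin k → Fin q), (∀ s, u s ∈ I) ∧ StrictMono J ∧
   ¬ (∀ᶠ w in nhds c, (Matrix.of fun r s => u s w (J r)).det = 0)) →
 (∀ c ∈ G, ∀ (r : ℕ) (u : Fin r → ℂ → Fin q → ℂ) (J : Fin r → Fin q), (∀ s, u s ∈ I) →
   StrictMono J → ¬ (∀ᶠ w in nhds c, (Matrix.of fun a s => u s w (J a)).det = 0) → r ≤ k) →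
 ∀ f ∈ P, ∀ V ∈ @nhds ↥P τ 0, ∀ Φ : ℂ → ℂ, DifferentiableOn ℂ Φ G →
 (∀ z ∈ G, ∀ (u : Fin k → ↥P) (J : Fin k → Fin q), (∀ s, u s ∈ V) →
   (∀ s, (u s : ℂ → Fin q → ℂ) ∈ I) → StrictMono J →
   (Matrix.of fun r s => (u s : ℂ → Fin q → ℂ) z (J r)).det ≠ 0 →
   ‖Φ z‖ ≤ 1 + ∑ s, ‖((Matrix.of fun r s' => (u s' : ℂ → Fin q → ℂ) z (J r)).updateCol s
       (fun r => f z (J r))).det / (Matrix.of fun r s' => (u s' : ℂ → Fin q → ℂ) z (J r)).det‖) →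
 ∃ C : ℝ, ∀ z ∈ G, ‖Φ z‖ ≤ C) := by
  intro H
  open Pool.Agent.Lib.MP_efa496_an in
  have key := H Set.univ isOpen_univ isConnected_univ 3 (by norm_num) PP
    (fun f hf => ⟨hf.1.differentiableOn, fun w hw => absurd (Set.mem_univ w) hw⟩)
    poly_smul_mem tau tau_t2 tau_addGroup tau_smul ?convex poly_smul_cont ?stable ?cond3
    II (fun u hu => hu.1)
    (fun p f hf => ⟨poly_smul_mem p f hf.1, fun z j h => by simp [hf.2 z j h]⟩)
    ?divisorial 3 ?rank1 ?rank2 (fun _ _ => 1) one_mem (BB 15 (1 / 4))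
    (BB_mem_nhds 15 (by norm_num)) (fun z => Complex.exp (z / 4)) (by fun_prop) ?bound
  · obtain ⟨C, hC⟩ := key
    have h := hC ((4 * C : ℝ) : ℂ) (Set.mem_univ _)
    rw [Complex.norm_exp] at h
    have e : (((4 * C : ℝ) : ℂ) / 4).re = C := by simp
    rw [e] at h
    have := Real.add_one_le_exp C
    linarith
  case convex =>
    open Pool.Agent.Lib.MP_efa496_an in
    intro V hV
    obtain ⟨n, δ, hδ, hV⟩ := Pool.Agent.Lib.MP_efa496_an.mem_nhds_tau.mp hV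
    refine ⟨_, Pool.Agent.Lib.MP_efa496_an.BB_mem_nhds n hδ, hV, ?_⟩
    intro x hx y hy t h0 h1
    have a1 := Pool.Agent.Lib.MP_efa496_an.smul_mem_BB (c := (t : ℂ)) (ε := t * δ) hx
      (by simp [abs_of_nonneg h0])
    have a2 := Pool.Agent.Lib.MP_efa496_an.smul_mem_BB (c := ((1 - t : ℝ) : ℂ))
      (ε := (1 - t) * δ) hy
      (by rw [Complex.norm_real, Real.norm_eq_abs, abs_of_nonneg (by linarith)])
    have a3 := Pool.Agent.Lib.MP_efa496_an.add_mem_BB a1 a2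
    have e : t * δ + (1 - t) * δ = δ := by ring
    rwa [e] at a3
  case stable =>
    intro V hV
    obtain ⟨n, δ, hδ, hV⟩ := Pool.Agent.Lib.MP_efa496_an.mem_nhds_tau.mp hV
    have he := Real.exp_pos 16
    refine ⟨_, Pool.Agent.Lib.MP_efa496_an.BB_mem_nhds n (div_pos hδ he), ?_⟩
    intro c x hx g hg _ hxg
    have hg' : Differentiable ℂ g := differentiableOn_univ.mp hg
    have hxg' : ∀ w, (x : ℂ → Fin 3 → ℂ) w = (w - c) • g w := fun w => hxg w (Set.mem_univ w)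
    have hgP : g ∈ Pool.Agent.Lib.MP_efa496_an.PP := by
      refine ⟨hg', fun m => ?_⟩
      obtain ⟨C, hC, hb⟩ := x.2.2 m
      exact ⟨C * Real.exp 16, mul_pos hC he,
        Pool.Agent.Lib.MP_efa496_an.div_bound_vec hg' c hxg' hC.le hb⟩
    refine ⟨⟨g, hgP⟩, hV ?_, rfl⟩
    intro z j
    have := Pool.Agent.Lib.MP_efa496_an.div_bound_vec hg' c hxg' (div_pos hδ he).le hx z j
    rwa [div_mul_cancel₀ _ he.ne'] at this
  case cond3 =>
    intro n F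
    constructor
    · intro g hg _ hb
      refine ⟨differentiableOn_univ.mp hg, fun m => ?_⟩
      obtain ⟨C, hC, hs⟩ := Pool.Agent.Lib.MP_efa496_an.sum_bound F m
      exact ⟨C, hC, fun z j => (hb z (Set.mem_univ z) j).trans (hs z j)⟩
    · intro V hV
      obtain ⟨m, δ, hδ, hV⟩ := Pool.Agent.Lib.MP_efa496_an.mem_nhds_tau.mp hV
      obtain ⟨C, hC, hs⟩ := Pool.Agent.Lib.MP_efa496_an.sum_bound F m
      refine ⟨C / δ, div_pos hC hδ, fun a ha x hx => ?_⟩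
      have ha0 : 0 < ‖a‖ := lt_of_lt_of_le (div_pos hC hδ) ha
      have ha1 : a ≠ 0 := norm_pos_iff.mp ha0
      refine ⟨a⁻¹ • x, hV ?_, by rw [smul_smul, mul_inv_cancel₀ ha1, one_smul]⟩
      refine Pool.Agent.Lib.MP_efa496_an.smul_mem_BB (δ := C)
        (fun z j => (hx z (Set.mem_univ z) j).trans (hs z j)) ?_
      rw [norm_inv, inv_mul_le_iff₀ ha0]
      rwa [div_le_iff₀ hδ] at ha
  case divisorial =>
    intro f hf hloc
    refine ⟨hf, fun z j hz => ?_⟩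
    obtain ⟨n, u, h, hu, -, hev⟩ := hloc z (Set.mem_univ z)
    rw [hev.self_of_nhds]
    simp only [Finset.sum_apply, Pi.smul_apply, smul_eq_mul]
    apply Finset.sum_eq_zero
    intro m _
    rw [(hu m).2 z j hz, mul_zero]
  case rank1 =>
    refine ⟨0, Set.mem_univ _, Pool.Agent.Lib.MP_efa496_an.gen, id,
      Pool.Agent.Lib.MP_efa496_an.gen_mem, strictMono_id, fun hev => ?_⟩
    have h := hev.self_of_nhds
    rw [Matrix.det_fin_three] at h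
    simp [Pool.Agent.Lib.MP_efa496_an.gen, Pool.Agent.Lib.MP_efa496_an.EE_zero] at h
  case rank2 =>
    intro c _ r u J _ hJ _
    simpa using Fintype.card_le_of_injective J hJ.injective
  case bound =>
    intro z _ u J huV huI hJ hdet
    rw [Complex.norm_exp]
    have e : (z / 4).re = z.re / 4 := by simp
    rw [e]
    have hs : 0 ≤ ∑ s, ‖((Matrix.of fun r s' => (u s' : ℂ → Fin 3 → ℂ) z (J r)).updateCol s
       (fun _ => (1 : ℂ))).det / (Matrix.of fun r s' => (u s' : ℂ → Fin 3 → ℂ) z (J r)).det‖ :=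
      Finset.sum_nonneg fun s _ => norm_nonneg _
    by_cases hz : 0 ≤ z.re
    · obtain ⟨j, hj⟩ := Pool.Agent.Lib.MP_efa496_an.small_row z hz
      obtain ⟨r, hr⟩ := Finite.injective_iff_surjective.mp hJ.injective j
      have h := Pool.Agent.Lib.MP_efa496_an.cramer_bound _ hdet r
        (t := Real.exp (-(z.re / 4))) (fun s => by
          simp only [Matrix.of_apply, hr]
          exact hj (u s) (huV s) (huI s))
      have h2 := mul_le_mul_of_nonneg_left h (Real.exp_pos (z.re / 4)).le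
      rw [← mul_assoc, ← Real.exp_add, add_neg_cancel, Real.exp_zero, one_mul, mul_one] at h2
      linarith
    · have : Real.exp (z.re / 4) ≤ 1 := Real.exp_le_one_iff.mpr (by linarith)
      linarith

end Pool.Agent.S06628
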