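import Pool.Statements.S06959
import Pool.Agent.Lib.MP_04fdae_co.X.Top

set_option autoImplicit false
open Pool Pool.MP_04fdae_co

namespace Pool.Agent.S06959

/-- For n ≥ 4, any family of triangulations of a convex n-gon in which every two share a diagonal has at most Catalan(n−3) members, with equality iff it is all triangulations containing a fixed diagonal that cuts off an ear. -/
theorem result :
  ∀ n : ℕ, 4 ≤ n →
  ∀ Tri : Set (Finset (Fin n × Fin n)),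
    (∀ T : Finset (Fin n × Fin n), T ∈ Tri ↔
      ((∀ p ∈ T, p.1.val + 2 ≤ p.2.val ∧ ¬ (p.1.val = 0 ∧ p.2.val = n - 1)) ∧
       (∀ p ∈ T, ∀ q ∈ T,
          ¬ ((p.1 < q.1 ∧ q.1 < p.2 ∧ p.2 < q.2) ∨ (q.1 < p.1 ∧ p.1 < q.2 ∧ q.2 < p.2))) ∧
       (∀ p : Fin n × Fin n,
          (p.1.val + 2 ≤ p.2.val ∧ ¬ (p.1.val = 0 ∧ p.2.val = n - 1)) →
          (∀ q ∈ T,
            ¬ ((p.1 < q.1 ∧ q.1 < p.2 ∧ p.2 < q.2) ∨ (q.1 < p.1 ∧ p.1 < q.2 ∧ q.2 < p.2))) →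
          p ∈ T))) →
    ∀ F : Finset (Finset (Fin n × Fin n)),
      (∀ T ∈ F, T ∈ Tri) →
      (∀ T₁ ∈ F, ∀ T₂ ∈ F, (T₁ ∩ T₂).Nonempty) →
      F.card ≤ catalan (n - 3) ∧
      (F.card = catalan (n - 3) ↔
        ∃ d : Fin n × Fin n,
          (d.2.val = d.1.val + 2 ∨ (d.1.val = 0 ∧ d.2.val = n - 2) ∨
            (d.1.val = 1 ∧ d.2.val = n - 1)) ∧
          ∀ T : Finset (Fin n × Fin n), T ∈ F ↔ (T ∈ Tri ∧ d ∈ T)) :=
  Pool.Agent.Lib.MP_04fdae_co.X.top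

end Pool.Agent.S06959
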