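import Pool.Statements.S07094
import Pool.Agent.Lib.MP_0a7691_co.Hub

set_option autoImplicit false
open Pool Pool.MP_0a7691_co

namespace Pool.Agent.S07094

/-- The negation of the preceding statement: There exist k and f such that every k-connected Hamiltonian graph on an odd number n of vertices with n at least f(independence number) has its Hamilton cycles spanning its whole cycle space over GF(2). -/
theorem result :
    ¬ (∃ k : ℕ, ∃ f : ℕ → ℕ,
      ∀ (V : Type) [Fintype V] [DecidableEq V] (G : SimpleGraph V),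
        Odd (Fintype.card V) →
        (k < Fintype.card V ∧
          ∀ S : Finset V, S.card < k → (G.induce ((↑S : Set V)ᶜ)).Connected) →
        G.IsHamiltonian →
        f G.indepNum ≤ Fintype.card V →
        Submodule.span (ZMod 2)
            {x : Sym2 V → ZMod 2 | ∃ (u : V) (p : G.Walk u u),
              p.IsHamiltonianCycle ∧
                x = Set.indicator {e : Sym2 V | e ∈ p.edges} (fun _ => (1 : ZMod 2))} =
          Submodule.span (ZMod 2)
            {x : Sym2 V → ZMod 2 | ∃ (u : V) (p : G.Walk u u),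
              p.IsCycle ∧
                x = Set.indicator {e : Sym2 V | e ∈ p.edges} (fun _ => (1 : ZMod 2))}) := by
  rintro ⟨k, f, H⟩
  set K := 2 * k + 3 with hK
  set M := 2 * (∑ a ∈ Finset.range (K + 1), f a) + 3 with hM
  have h9 : 3 * 3 ≤ K * M := Nat.mul_le_mul (by omega) (by omega)
  have hMn : 3 * M ≤ K * M := Nat.mul_le_mul_right _ (by omega)
  have hKn : K * 3 ≤ K * M := Nat.mul_le_mul_left _ (by omega)
  obtain ⟨N, hN⟩ : ∃ N, N + 3 = K * M := ⟨K * M - 3, by omega⟩
  have hM0 : 0 < M := by omega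
  have hodd : Odd (N + 3) := by
    rw [hN]
    exact Odd.mul ⟨k + 1, by omega⟩ ⟨(∑ a ∈ Finset.range (K + 1), f a) + 1, by omega⟩
  have hf : f (Lib.MP_0a7691_co.hubGraph (N + 3) M).indepNum ≤ N + 3 := by
    have h1 := Lib.MP_0a7691_co.indepNum_le (N + 3) K M hN hM0
    have h2 : f (Lib.MP_0a7691_co.hubGraph (N + 3) M).indepNum ≤
        ∑ a ∈ Finset.range (K + 1), f a :=
      Finset.single_le_sum (f := f) (fun _ _ => Nat.zero_le _) (Finset.mem_range.2 (by omega))
    omega
  have hspan := H (Fin (N + 3)) (Lib.MP_0a7691_co.hubGraph (N + 3) M) (by simpa using hodd)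
    ⟨by simp; omega, fun S hS =>
      Lib.MP_0a7691_co.connected_compl (N + 3) K M hN hM0 S (by omega)⟩
    (Lib.MP_0a7691_co.hamiltonian N M) (by simpa using hf)
  let a : Fin (N + 3) := ⟨0, by omega⟩
  let b : Fin (N + 3) := ⟨M, by omega⟩
  let c : Fin (N + 3) := ⟨1, by omega⟩
  have hab : a ≠ b := fun h => by
    have := congrArg Fin.val h
    simp only [a, b] at this
    omega
  have hbc : b ≠ c := fun h => by
    have := congrArg Fin.val h
    simp only [b, c] at this
    omega
  have hca : c ≠ a := fun h => by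
    have := congrArg Fin.val h
    simp only [a, c] at this
    omega
  have ha : a.val % M = 0 := by simp [a]
  have hb : b.val % M = 0 := by simp [b]
  have h1 : (Lib.MP_0a7691_co.hubGraph (N + 3) M).Adj a b :=
    Lib.MP_0a7691_co.hub_adj.2 ⟨hab, Or.inl ha⟩
  have h2 : (Lib.MP_0a7691_co.hubGraph (N + 3) M).Adj b c :=
    Lib.MP_0a7691_co.hub_adj.2 ⟨hbc, Or.inl hb⟩
  have h3 : (Lib.MP_0a7691_co.hubGraph (N + 3) M).Adj c a :=
    Lib.MP_0a7691_co.hub_adj.2 ⟨hca, Or.inr (Or.inl ha)⟩
  let t : (Lib.MP_0a7691_co.hubGraph (N + 3) M).Walk a a := .cons h1 (.cons h2 (.cons h3 .nil))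
  have ht : t.IsCycle := by
    simp only [t, SimpleGraph.Walk.cons_isCycle_iff, SimpleGraph.Walk.cons_isPath_iff]
    simp [hab, hbc, hca, hab.symm, hbc.symm, hca.symm]
  have hle : Submodule.span (ZMod 2)
      {x : Sym2 (Fin (N + 3)) → ZMod 2 | ∃ (u : Fin (N + 3))
        (p : (Lib.MP_0a7691_co.hubGraph (N + 3) M).Walk u u), p.IsHamiltonianCycle ∧
          x = Set.indicator {e | e ∈ p.edges} (fun _ => (1 : ZMod 2))} ≤
      LinearMap.ker (LinearMap.proj (R := ZMod 2) (φ := fun _ : Sym2 (Fin (N + 3)) => ZMod 2)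
        s(a, b)) := by
    refine Submodule.span_le.2 ?_
    rintro _ ⟨u, p, hp, rfl⟩
    have := Lib.MP_0a7691_co.no_hub_edge (N + 3) K M hN (by omega) p hp a b ha hb
    simp [this]
  rw [hspan] at hle
  have hmem := hle (Submodule.subset_span ⟨a, t, ht, rfl⟩)
  simp [t] at hmem

end Pool.Agent.S07094
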