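import Pool.Statements.S07784
import Pool.Agent.Lib.MP_299528_co.GW.D

set_option autoImplicit false
open Pool Pool.MP_299528_co

namespace Pool.Agent.S07784

/-- The negation of the preceding statement: For every d and every additive submonoid S of ℕ^d with finite complement, (number of minimal generators) × (elements of S below some gap) ≥ d × (points of ℕ^d below some gap). -/
theorem result :
    ¬ (∀ (d : ℕ) (S : Set (Fin d → ℕ)),
      (0 : Fin d → ℕ) ∈ S →
      (∀ x ∈ S, ∀ y ∈ S, x + y ∈ S) →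
      Sᶜ.Finite →
      d * {x : Fin d → ℕ | ∃ h : Fin d → ℕ, h ∉ S ∧ x ≤ h}.ncard ≤
        {x : Fin d → ℕ | x ∈ S ∧ x ≠ 0 ∧
            ∀ a ∈ S, ∀ b ∈ S, a + b = x → a = 0 ∨ b = 0}.ncard *
          {x : Fin d → ℕ | x ∈ S ∧ ∃ h : Fin d → ℕ, h ∉ S ∧ x ≤ h}.ncard) :=
  Pool.Agent.GW.not_all

end Pool.Agent.S07784
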