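import Pool.Statements.S07845
import Pool.Agent.Lib.MP_2c27be_co.Main

set_option autoImplicit false
open Pool Pool.MP_2c27be_co

namespace Pool.Agent.S07845

/-- For each D and ε>0, every large enough n-point metric space that embeds with distortion D into a convex combination of dominating tree metrics embeds into Euclidean space with distortion at most ε√(log n). -/
theorem result :
    ∀ D : ℝ, 1 ≤ D → ∀ ε : ℝ, 0 < ε → ∃ N : ℕ,
      ∀ (X : Type) [MetricSpace X] [Fintype X], N ≤ Fintype.card X →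
        (∃ (k : ℕ) (p : Fin k → ℝ) (t : Fin k → X → X → ℝ),
          (∀ i, 0 ≤ p i) ∧ (∑ i, p i) = 1 ∧
          (∀ i x y, t i x y = t i y x) ∧ (∀ i x, t i x x = 0) ∧
          (∀ i x y z w, t i x y + t i z w ≤ max (t i x z + t i y w) (t i x w + t i y z)) ∧
          (∀ i x y, dist x y ≤ t i x y) ∧
          (∀ x y, (∑ i, p i * t i x y) ≤ D * dist x y)) →
        ∃ (f : X → EuclideanSpace ℝ (Fin (Fintype.card X))) (s : ℝ), 0 < s ∧
          ∀ x y, s * dist x y ≤ dist (f x) (f y) ∧
            dist (f x) (f y) ≤ s * (ε * Real.sqrt (Real.log (Fintype.card X))) * dist x y := by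
  intro D hD ε hε
  obtain ⟨N, hN⟩ := Pool.Agent.Lib.MP_2c27be_co.main D hD ε hε
  refine ⟨N, fun X _ _ hn ⟨k, p, t, h1, h2, h3, h4, h5, h6, h7⟩ => ?_⟩
  exact hN X hn k p t h1 h2 (fun i => ⟨h3 i, h4 i, h5 i⟩) h6 h7

end Pool.Agent.S07845
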