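import Pool.Statements.S08274
import Pool.Agent.Lib.MP_3e2ec7_co.Main

set_option autoImplicit false
open Matrix
open Pool Pool.MP_3e2ec7_co

namespace Pool.Agent.S08274

/-- The negation of the preceding statement: For every finite simple graph and real time τ, if all entries of exp(iτA) have equal absolute value, then every eigenvalue of exp(iτA) is a root of unity. -/
theorem result :
    ¬ (∀ (V : Type) [Fintype V] [DecidableEq V] (G : SimpleGraph V) [DecidableRel G.Adj] (τ : ℝ),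
      (∀ a b c d : V,
        ‖(NormedSpace.exp ((Complex.I * (τ : ℂ)) • G.adjMatrix ℂ)) a b‖ =
          ‖(NormedSpace.exp ((Complex.I * (τ : ℂ)) • G.adjMatrix ℂ)) c d‖) →
      ∀ μ : ℂ, (∃ v : V → ℂ, v ≠ 0 ∧
          (NormedSpace.exp ((Complex.I * (τ : ℂ)) • G.adjMatrix ℂ)) *ᵥ v = μ • v) →
        ∃ k : ℕ, 0 < k ∧ μ ^ k = 1) := by
  intro h
  open Pool.Agent.Lib.MP_3e2ec7_co in
  obtain ⟨k, hk, hmu⟩ := h V G tau
    (fun a b c d => (norm_U a b).trans (norm_U c d).symm) (mu ((1, 0), (0, 0)))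
    ⟨_, col_ne ((1, 0), (0, 0)), eig ((1, 0), (0, 0))⟩
  exact Pool.Agent.Lib.MP_3e2ec7_co.mu_not_root (0, 0) k hk hmu

end Pool.Agent.S08274
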