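import Pool.Statements.S08601
import Pool.Agent.Lib.MP_4aeae0_co.HubD

set_option autoImplicit false
open Pool Pool.MP_4aeae0_co

namespace Pool.Agent.S08601

/-- For every finite graph H there are c, r such that every n-vertex graph with nonnegative vertex weights and no H induced minor has a set S whose removal leaves no connected part above half the total weight, with S inside at most c√n radius-r balls. -/
theorem result :
    ∀ (W : Type) [Fintype W] (H : SimpleGraph W),
      ∃ c r : ℕ,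
        ∀ (V : Type) [Fintype V] (G : SimpleGraph V) (w : V → ℝ),
          (∀ v, 0 ≤ w v) →
          (¬ ∃ B : W → Set V,
              (∀ a, (G.induce (B a)).Connected) ∧
              (∀ a b, a ≠ b → Disjoint (B a) (B b)) ∧
              (∀ a b, a ≠ b → (H.Adj a b ↔ ∃ x ∈ B a, ∃ y ∈ B b, G.Adj x y))) →
          ∃ S : Finset V, ∃ C : Finset V,
            ((C.card : ℝ) ≤ (c : ℝ) * Real.sqrt (Fintype.card V)) ∧
            (∀ x ∈ S, ∃ v ∈ C, G.edist v x ≤ (r : ℕ∞)) ∧
            (∀ T : Finset V, Disjoint T S → (G.induce (T : Set V)).Connected →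
              ∑ v ∈ T, w v ≤ (∑ v, w v) / 2) := by
  classical
  intro W _ H
  set h := Fintype.card W with hh
  set k := 2 * Pool.Agent.Lib.MP_4aeae0_co.budget (h * h * (4 * h + 14) + 2 * (h * h))
    (2 * (h * h)) h + 2 with hk
  refine ⟨2 * k, h + 3, fun V _ G w hw hno => ?_⟩
  by_contra hcon
  rcases isEmpty_or_nonempty V with hV | hV
  · exact hcon ⟨∅, ∅, by simp, by simp, fun T _ _ => by simp [Finset.eq_empty_of_isEmpty T]⟩
  set s := Nat.sqrt (Fintype.card V) + 1 with hs
  have hn : Fintype.card V ≤ s * s := (Nat.lt_succ_sqrt _).le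
  have hs2 : (s : ℝ) ≤ 2 * Real.sqrt (Fintype.card V) := by
    have h1 : ((Nat.sqrt (Fintype.card V) : ℕ) : ℝ) ≤ Real.sqrt (Fintype.card V) :=
      Real.nat_sqrt_le_real_sqrt
    have h2 : (1 : ℝ) ≤ Real.sqrt (Fintype.card V) := by
      rw [Real.one_le_sqrt]
      exact_mod_cast Fintype.card_pos
    rw [hs]
    push_cast
    linarith
  have hns : Pool.Agent.Lib.MP_4aeae0_co.NoSep G w (k * s) (h + 3) := by
    rintro S ⟨C, hC, hS⟩
    by_contra hT
    refine hcon ⟨Finset.univ.filter (· ∈ S), C, ?_, fun x hx => hS x (Finset.mem_filter.1 hx).2,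
      fun T hd hc => ?_⟩
    · have h1 : (C.card : ℝ) ≤ (k : ℝ) * s := by exact_mod_cast hC
      have h2 : (k : ℝ) * s ≤ (k : ℝ) * (2 * Real.sqrt (Fintype.card V)) :=
        mul_le_mul_of_nonneg_left hs2 (Nat.cast_nonneg _)
      push_cast
      linarith
    · by_contra hlt
      refine hT ⟨(T : Set V), Set.disjoint_left.2 fun v hv hvS => Finset.disjoint_left.1 hd hv
        (Finset.mem_filter.2 ⟨Finset.mem_univ _, hvS⟩),
        Pool.Agent.Lib.MP_4aeae0_co.conn_of_connected hc, ?_⟩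
      unfold Pool.Agent.Lib.MP_4aeae0_co.Big
      refine lt_of_lt_of_eq (not_le.1 hlt) (Finset.sum_congr ?_ fun _ _ => rfl)
      ext v
      simp
  let e : W → ℕ := fun a => (Fintype.equivFin W a : ℕ)
  have he : ∀ a, e a < h := fun a => (Fintype.equivFin W a).2
  have hinj : Function.Injective e := fun a b hab => (Fintype.equivFin W).injective (Fin.ext hab)
  let F : Finset (ℕ × ℕ) :=
    (Finset.univ.filter fun q : W × W => H.Adj q.1 q.2 ∧ e q.2 < e q.1).image
      fun q => (e q.1, e q.2)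
  have hF : ∀ q, q ∈ F ↔ ∃ a b, H.Adj a b ∧ e b < e a ∧ (e a, e b) = q := by
    intro q
    simp only [F, Finset.mem_image, Finset.mem_filter, Finset.mem_univ, true_and, Prod.exists,
      and_assoc]
  obtain ⟨B, h1, h2, h3, h4⟩ := Pool.Agent.Lib.MP_4aeae0_co.exists_model hw (Nat.le_add_left 1 _)
    hn hns F fun q hq => by
      obtain ⟨a, b, -, hab, rfl⟩ := (hF q).1 hq
      exact ⟨hab, he a⟩
  refine hno ⟨fun a => B (e a), fun a => h1 _ (he a),
    fun a b hab => h2 _ (he a) _ (he b) (hinj.ne hab), fun a b hab => ⟨fun hadj => ?_, ?_⟩⟩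
  · rcases lt_or_gt_of_ne (hinj.ne hab) with hlt | hlt
    · obtain ⟨x, hx, y, hy, hxy⟩ := h4 _ ((hF _).2 ⟨b, a, hadj.symm, hlt, rfl⟩)
      exact ⟨y, hy, x, hx, hxy.symm⟩
    · exact h4 _ ((hF _).2 ⟨a, b, hadj, hlt, rfl⟩)
  · rintro ⟨x, hx, y, hy, hxy⟩
    by_contra hadj
    refine h3 _ (he a) _ (he b) (hinj.ne hab) (fun hq => ?_) (fun hq => ?_) x hx y hy (Or.inr hxy)
    · obtain ⟨a', b', h5, -, h6⟩ := (hF _).1 hq
      obtain ⟨h7, h8⟩ := Prod.mk.inj h6
      exact hadj (hinj h7 ▸ hinj h8 ▸ h5)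
    · obtain ⟨a', b', h5, -, h6⟩ := (hF _).1 hq
      obtain ⟨h7, h8⟩ := Prod.mk.inj h6
      exact hadj (hinj h7 ▸ hinj h8 ▸ h5.symm)

end Pool.Agent.S08601
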