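import Pool.Statements.S10765
import Pool.Agent.Lib.MP_ad48ef_co.T3

set_option autoImplicit false
open Pool Pool.MP_ad48ef_co

namespace Pool.Agent.S10765

/-- Every finite simple graph that has a plane drawing and diameter exactly 3 has a set of at most 6 vertices such that every vertex is adjacent to some vertex of the set. -/
theorem result :
    ∀ (V : Type) [Fintype V] (G : SimpleGraph V),
      (∃ p : V → ℝ × ℝ, Function.Injective p ∧
        ∃ γ : V → V → C(unitInterval, ℝ × ℝ),
          (∀ u v, G.Adj u v →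
              γ u v 0 = p u ∧ γ u v 1 = p v ∧ Function.Injective (γ u v) ∧
              ∀ (w : V) (t : unitInterval), γ u v t = p w → t = 0 ∨ t = 1) ∧
          (∀ u v x y, G.Adj u v → G.Adj x y → s(u, v) ≠ s(x, y) →
              ∀ (a b : unitInterval), γ u v a = γ x y b →
                (a = 0 ∨ a = 1) ∧ (b = 0 ∨ b = 1))) →
      G.diam = 3 →
      ∃ D : Finset V, D.card ≤ 6 ∧ ∀ v : V, ∃ u ∈ D, G.Adj v u :=
  fun _ _ G ⟨p, hp, γ, h1, h2⟩ dm => Lib.MP_ad48ef_co.Gl.main_of Lib.MP_ad48ef_co.Gl.tops3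
    (Shared.Planar.ht_of_drawing G p hp γ
      (fun u v e => ⟨(h1 u v e).1, (h1 u v e).2.1, (h1 u v e).2.2.2⟩) h2) dm

end Pool.Agent.S10765
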