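import Pool.Statements.S10805
import Pool.Agent.Lib.MP_af3016_co.G.All

set_option autoImplicit false
open Pool Pool.MP_af3016_co

namespace Pool.Agent.S10805

/-- For every finite graph G and numbers n_1..n_k, each at least 3, summing to the vertex count, if the minimum degree is at least the sum of ceil(n_i/2), then G has k pairwise vertex-disjoint cycles of lengths n_1..n_k. -/
theorem result :
    ∀ (V : Type) [Fintype V] [DecidableEq V] (G : SimpleGraph V) [DecidableRel G.Adj]
      (k : ℕ) (n : Fin k → ℕ),
      (∀ i, 3 ≤ n i) →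
      (∑ i, n i = Fintype.card V) →
      (∑ i, (n i + 1) / 2) ≤ G.minDegree →
      ∃ (v : Fin k → V) (c : ∀ i, G.Walk (v i) (v i)),
        (∀ i, (c i).IsCycle ∧ (c i).length = n i) ∧
        ∀ i j, i ≠ j → Disjoint (c i).support.toFinset (c j).support.toFinset := by
  intro V _ _ G _ k n h3 hs hdeg
  exact Pool.Agent.Lib.MP_af3016_co.mainAll G k n h3 hs hdeg

end Pool.Agent.S10805
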