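import Pool.Statements.S10999
import Pool.Agent.Lib.MP_b7b1cf_co.Main

set_option autoImplicit false
open Pool Pool.MP_b7b1cf_co

namespace Pool.Agent.S10999

/-- For oriented matroids M1, M2* on an n-element set (given by covector axioms) whose union is free and whose ranks sum to n: they share a nonzero covector iff they share a nonzero vector. -/
theorem result :
    ∀ (n : ℕ) (OM : Set (Fin n → SignType) → Prop)
      (Vec : Set (Fin n → SignType) → Set (Fin n → SignType))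
      (Indep : Set (Fin n → SignType) → Finset (Fin n) → Prop),
      (∀ L : Set (Fin n → SignType), OM L ↔
        ((0 : Fin n → SignType) ∈ L ∧
         (∀ X ∈ L, -X ∈ L) ∧
         (∀ X ∈ L, ∀ Y ∈ L, (fun e => if X e = 0 then Y e else X e) ∈ L) ∧
         (∀ X ∈ L, ∀ Y ∈ L, ∀ e : Fin n, X e ≠ 0 → X e = -Y e →
            ∃ Z ∈ L, Z e = 0 ∧
              ∀ f : Fin n, (X f = 0 ∨ X f ≠ -Y f) →
                Z f = (if X f = 0 then Y f else X f)))) →
      (∀ (L : Set (Fin n → SignType)) (Y : Fin n → SignType), Y ∈ Vec L ↔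
        ∀ X ∈ L, (∀ e : Fin n, X e * Y e = 0) ∨
          ∃ e f : Fin n, X e * Y e = 1 ∧ X f * Y f = -1) →
      (∀ (L : Set (Fin n → SignType)) (I : Finset (Fin n)), Indep L I ↔
        ∀ Y ∈ Vec L, Y ≠ 0 → ∃ e : Fin n, Y e ≠ 0 ∧ e ∉ I) →
      ∀ L₁ L₂ : Set (Fin n → SignType), OM L₁ → OM L₂ →
        (∃ I₁ I₂ : Finset (Fin n), Indep L₁ I₁ ∧ Indep L₂ I₂ ∧ I₁ ∪ I₂ = Finset.univ) →
        (∃ B₁ B₂ : Finset (Fin n), Indep L₁ B₁ ∧ Indep L₂ B₂ ∧
          (∀ J : Finset (Fin n), Indep L₁ J → J.card ≤ B₁.card) ∧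
          (∀ J : Finset (Fin n), Indep L₂ J → J.card ≤ B₂.card) ∧
          B₁.card + B₂.card = n) →
        ((∃ X : Fin n → SignType, X ≠ 0 ∧ X ∈ L₁ ∧ X ∈ L₂) ↔
          (∃ Y : Fin n → SignType, Y ≠ 0 ∧ Y ∈ Vec L₁ ∧ Y ∈ Vec L₂)) := by
  intro n OM Vec Indep hOM hVec hInd L₁ L₂ h₁ h₂ hU hR
  have hperp : ∀ L, Vec L = Pool.Agent.Lib.MP_b7b1cf_co.perp L := by
    intro L; ext Y; exact hVec L Y
  have hom : ∀ L, OM L → Pool.Agent.Lib.MP_b7b1cf_co.IsOM L := by
    intro L hL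
    obtain ⟨a, b, c, d⟩ := (hOM L).1 hL
    exact ⟨a, b, c, d⟩
  have o₁ := hom L₁ h₁
  have o₂ := hom L₂ h₂
  have p₁ := Pool.Agent.Lib.MP_b7b1cf_co.paint_perp o₁
  have p₂ := Pool.Agent.Lib.MP_b7b1cf_co.paint_perp o₂
  have d₁ := Pool.Agent.Lib.MP_b7b1cf_co.perp_isOM o₁
  have d₂ := Pool.Agent.Lib.MP_b7b1cf_co.perp_isOM o₂
  obtain ⟨I₁, I₂, hI₁, hI₂, hI⟩ := hU
  obtain ⟨B₁, B₂, _, _, m₁, m₂, hn⟩ := hR
  have c₁ := m₁ I₁ hI₁
  have c₂ := m₂ I₂ hI₂
  have c₃ := Finset.card_union_add_card_inter I₁ I₂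
  rw [hI, Finset.card_univ, Fintype.card_fin] at c₃
  have c₄ : (I₁ ∩ I₂).card = 0 := by omega
  have hdisj : ∀ e, e ∈ I₂ ↔ e ∉ I₁ := by
    intro e
    constructor
    · intro h2 h1
      have : e ∈ I₁ ∩ I₂ := Finset.mem_inter.2 ⟨h1, h2⟩
      rw [Finset.card_eq_zero.1 c₄] at this
      simp at this
    · intro h1
      have : e ∈ I₁ ∪ I₂ := by rw [hI]; exact Finset.mem_univ e
      exact (Finset.mem_union.1 this).resolve_left h1
  have indep : ∀ L I, Indep L I → ∀ Y ∈ Pool.Agent.Lib.MP_b7b1cf_co.perp L,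
      (∀ e, e ∉ I → Y e = 0) → Y = 0 := by
    intro L I hLI Y hY h0
    by_contra hne
    obtain ⟨e, he, heI⟩ := (hInd L I).1 hLI Y (by rw [hperp]; exact hY) hne
    exact he (h0 e heI)
  have span : ∀ L I, Indep L I → (∀ J, Indep L J → J.card ≤ I.card) → ∀ X ∈ L,
      (∀ e, e ∈ I → X e = 0) → X = 0 := by
    intro L I hLI hmax X hX h0
    funext e
    by_contra hne
    have heI : e ∉ I := fun h => hne (h0 e h)
    have hdep : ¬ Indep L (insert e I) := by
      intro h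
      have := hmax _ h
      rw [Finset.card_insert_of_notMem heI] at this
      omega
    rw [hInd] at hdep
    push Not at hdep
    obtain ⟨Y, hY, hY0, hYs⟩ := hdep
    have hYe : Y e ≠ 0 := by
      intro h
      obtain ⟨f, hf, hfI⟩ := (hInd L I).1 hLI Y hY hY0
      rcases Finset.mem_insert.1 (hYs f hf) with h' | h'
      · rw [h'] at hf; exact hf h
      · exact hfI h'
    have hoff : ∀ f, f ≠ e → X f * Y f = 0 := by
      intro f hf
      by_cases hYf : Y f = 0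
      · rw [hYf]; simp
      · rcases Finset.mem_insert.1 (hYs f hYf) with h' | h'
        · exact absurd h' hf
        · rw [h0 f h']; simp
    rcases (hVec L Y).1 hY X hX with h | ⟨f, g, hf, hg⟩
    · rcases mul_eq_zero.1 (h e) with h' | h'
      · exact hne h'
      · exact hYe h'
    · have a1 : f = e := by
        by_contra h; rw [hoff f h] at hf; exact absurd hf (by decide)
      have a2 : g = e := by
        by_contra h; rw [hoff g h] at hg; exact absurd hg (by decide)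
      rw [a1] at hf
      rw [a2, hf] at hg
      exact absurd hg (by decide)
  have s₁ := span L₁ I₁ hI₁ (fun J hJ => by have := m₁ J hJ; omega)
  have s₂ := span L₂ I₂ hI₂ (fun J hJ => by have := m₂ J hJ; omega)
  rw [hperp, hperp]
  constructor
  · exact Pool.Agent.Lib.MP_b7b1cf_co.common_of_common o₁ o₂ d₁ d₂ p₁ p₂ (fun e => e ∈ I₂)
      (fun X hX h => s₁ X hX (fun e he => h e (fun h' => (hdisj e).1 h' he)))
      (fun X hX h => s₂ X hX h)
  · exact Pool.Agent.Lib.MP_b7b1cf_co.common_of_common d₁ d₂ o₁ o₂ p₁.symm p₂.symm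
      (fun e => e ∈ I₁)
      (fun X hX h => indep L₁ I₁ hI₁ X hX h)
      (fun X hX h => indep L₂ I₂ hI₂ X hX (fun e he => h e (by
        by_contra h'; exact he ((hdisj e).2 h'))))

end Pool.Agent.S10999
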