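import Pool.Statements.S11184
import Pool.Agent.Lib.MP_bfa8dc_co.All

set_option autoImplicit false
open Pool Pool.MP_bfa8dc_co

namespace Pool.Agent.S11184

/-- The negation of the preceding statement: For k,h < d with k+h ≤ d, every d-polytope in R^d is within any ε>0 in Hausdorff distance of a d-polytope whose k-faces are all simplices and whose (d−1−h)-faces each lie in exactly h+1 facets. -/
theorem result :
    ¬ (∀ (d k h : ℕ), k < d → h < d → k + h ≤ d →
  ∀ P : Set (EuclideanSpace ℝ (Fin d)),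
    (∃ s : Finset (EuclideanSpace ℝ (Fin d)), P = convexHull ℝ (s : Set (EuclideanSpace ℝ (Fin d)))) →
    (interior P).Nonempty →
    ∀ ε : ℝ, 0 < ε →
    ∃ Q : Set (EuclideanSpace ℝ (Fin d)),
      (∃ s : Finset (EuclideanSpace ℝ (Fin d)), Q = convexHull ℝ (s : Set (EuclideanSpace ℝ (Fin d)))) ∧
      (interior Q).Nonempty ∧
      (∀ F : Set (EuclideanSpace ℝ (Fin d)), IsExposed ℝ Q F → F.Nonempty →
        Module.finrank ℝ (affineSpan ℝ F).direction = k →
        ∃ t : Finset (EuclideanSpace ℝ (Fin d)),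
          AffineIndependent ℝ
            (fun x : (t : Set (EuclideanSpace ℝ (Fin d))) => (x : EuclideanSpace ℝ (Fin d))) ∧
          F = convexHull ℝ (t : Set (EuclideanSpace ℝ (Fin d)))) ∧
      (∀ F : Set (EuclideanSpace ℝ (Fin d)), IsExposed ℝ Q F → F.Nonempty →
        Module.finrank ℝ (affineSpan ℝ F).direction = d - 1 - h →
        {G : Set (EuclideanSpace ℝ (Fin d)) | IsExposed ℝ Q G ∧ G.Nonempty ∧
          Module.finrank ℝ (affineSpan ℝ G).direction = d - 1 ∧ F ⊆ G}.ncard = h + 1) ∧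
      Metric.hausdorffDist P Q < ε) := by
  intro H
  refine KHPoly.final_of KHPoly.polyAll KHPoly.farS ?_
  intro d k h h1 h2 h3 P hP hi ε hε
  obtain ⟨Q, q1, q2, q3, q4, q5⟩ := H d k h h1 h2 h3 P hP hi ε hε
  exact ⟨Q, ⟨q1, q2, q3, q4⟩, q5⟩

end Pool.Agent.S11184
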