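import Pool.Statements.S11352
import Pool.Agent.Lib.MP_c6b127_co.Quad

set_option autoImplicit false
open Pool Pool.MP_c6b127_co
open scoped Pointwise

namespace Pool.Agent.S11352

/-- Counterexample: the quadrangle T2*(O) of order (31,33) for the Segre hyperoval O in PG(2,32),
with the point-primitive group preserving the three coordinate directions, has two line orbits of
sizes 3 * 1024 and 31 * 1024. -/
theorem result :
    ¬ (∀ (P L : Type) [Finite P] [Finite L] (I : P → L → Prop) (s t : ℕ),
      1 ≤ s → 1 ≤ t →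
      (∀ l : L, Set.ncard {p : P | I p l} = s + 1) →
      (∀ p : P, Set.ncard {l : L | I p l} = t + 1) →
      (∀ (p q : P) (l m : L), I p l → I q l → I p m → I q m → p = q ∨ l = m) →
      (∀ (p : P) (l : L), ¬ I p l → ∃! x : P × L, I p x.2 ∧ I x.1 x.2 ∧ I x.1 l) →
      ∀ (G : Type) [Group G] [MulAction G P] [MulAction G L],
        (∀ (g : G) (p : P) (l : L), I (g • p) (g • l) ↔ I p l) →
        MulAction.IsPreprimitive G P →
        (MulAction.IsPretransitive G L ∨
          ∃ l₁ l₂ : L, l₂ ∉ MulAction.orbit G l₁ ∧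
            (∀ l : L, l ∈ MulAction.orbit G l₁ ∨ l ∈ MulAction.orbit G l₂) ∧
            Set.ncard (MulAction.orbit G l₁) = Set.ncard (MulAction.orbit G l₂))) := by
  intro H
  let F : Type := GaloisField 2 5
  let _ : Fintype F := Fintype.ofFinite F
  have _ : Fact (Fintype.card F = 32) := ⟨by
    have := GaloisField.card 2 5 (by norm_num)
    rw [Nat.card_eq_fintype_card] at this
    simpa using this⟩
  refine Lib.MP_c6b127_co.not_dichotomy (F := F)
    (H (Lib.MP_c6b127_co.V F) (Lib.MP_c6b127_co.Ln F)
      (fun p l => p ∈ (l : Set (Lib.MP_c6b127_co.V F))) 31 33 (by norm_num) (by norm_num)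
      Lib.MP_c6b127_co.ncard_pts Lib.MP_c6b127_co.ncard_lines Lib.MP_c6b127_co.two_points
      Lib.MP_c6b127_co.gq_axiom (Lib.MP_c6b127_co.grp F) ?_ Lib.MP_c6b127_co.preprim)
  intro g p l
  exact Set.smul_mem_smul_set_iff

end Pool.Agent.S11352
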