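import Pool.Statements.S12839
import Pool.Agent.Lib.MP_1ba768_gt.Main

set_option autoImplicit false
open MvPolynomial
open Pool Pool.MP_1ba768_gt

namespace Pool.Agent.S12839

/-- For every quasi-smooth weighted homogeneous f in n+1 variables (n≥1), the torsion of the integral H_{n-1} of its link is isomorphic to the sum of Z/d_j, j=1..r, with c, k, r, d_j built from degree and weights exactly as in Orlik's recipe. -/
theorem result :
  ∀ (n : ℕ), 1 ≤ n →
  ∀ (w : Fin (n+1) → ℕ) (d : ℕ) (f : MvPolynomial (Fin (n+1)) ℂ),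
    (∀ i, 0 < w i) → 0 < d →
    IsWeightedHomogeneous w f d →
    (∀ z : Fin (n+1) → ℂ, (∀ i, eval z (pderiv i f) = 0) → z = 0) →
    ∀ (u v : Fin (n+1) → ℕ),
    (∀ i, u i = d / Nat.gcd d (w i)) →
    (∀ i, v i = w i / Nat.gcd d (w i)) →
    ∀ c : Finset (Fin (n+1)) → ℕ,
    (∀ I : Finset (Fin (n+1)),
      ∏ J ∈ I.powerset, c J = (Finset.univ \ I).gcd u) →
    ∀ k : Finset (Fin (n+1)) → ℚ,
    (∀ I : Finset (Fin (n+1)),
      k I = (if (n + 1 - I.card) % 2 = 1 then (1 : ℚ) else 0) *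
        ∑ J ∈ I.powerset, (-1 : ℚ) ^ (I.card - J.card) *
          ((∏ j ∈ J, (u j : ℚ)) /
            ((∏ j ∈ J, (v j : ℚ)) * ((J.lcm u : ℕ) : ℚ)))) →
    Nonempty
      (↥(AddCommGroup.torsion
        (((AlgebraicTopology.singularHomologyFunctor (ModuleCat.{0} ℤ) (n - 1)).obj
            (ModuleCat.of ℤ ℤ)).obj
          (TopCat.of {z : Fin (n+1) → ℂ // eval z f = 0 ∧ ∑ i, Complex.normSq (z i) = 1})))
      ≃+ ((j : Fin ⌊Finset.univ.sup' Finset.univ_nonempty k⌋₊) →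
            ZMod (∏ I ∈ Finset.univ.filter (fun I => (((j : ℕ) + 1 : ℕ) : ℚ) ≤ k I), c I))) := by
  exact Pool.Agent.Lib.MP_1ba768_gt.orlik

end Pool.Agent.S12839
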