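import Pool.Statements.S13168
import Pool.Agent.Lib.MP_52f683_gt.F.Main

set_option autoImplicit false
open Pool Pool.MP_52f683_gt

namespace Pool.Agent.S13168

/-- The negation of the preceding statement: There is an infinite topological space S such that any two subsets of S that are homeomorphic as subspaces are mapped onto each other by some homeomorphism of S onto itself. -/
theorem result :
    ¬ (∃ (S : Type) (_ : TopologicalSpace S), Infinite S ∧
      ∀ A B : Set S, Nonempty (A ≃ₜ B) → ∃ h : S ≃ₜ S, ⇑h '' A = B) := by
  rintro ⟨S, _, _, h⟩
  exact Pool.Agent.Lib.MP_52f683_gt.Thin.false (S := S) h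

end Pool.Agent.S13168
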