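import Pool.Statements.S13661
import Pool.Agent.Lib.MP_9e71a3_gt.Band
import Pool.Agent.Lib.MP_9e71a3_gt.Abstract

set_option autoImplicit false
open Pool Pool.MP_9e71a3_gt

namespace Pool.Agent.S13661

open Pool.Agent.Lib.MP_9e71a3_gt in
/-- For every continuum X: if there is a continuous map from X × [0,1] into R^3 that is injective except for collapsing X × {1} to one point (a cone embedding), then X topologically embeds in the 2-sphere. -/
theorem result :
    ∀ (X : Type) [TopologicalSpace X] [TopologicalSpace.MetrizableSpace X]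
      [CompactSpace X] [ConnectedSpace X],
      (∃ g : X × unitInterval → EuclideanSpace ℝ (Fin 3), Continuous g ∧
        ∀ p q : X × unitInterval, g p = g q ↔ (p = q ∨ (p.2 = 1 ∧ q.2 = 1))) →
      ∃ e : X → Metric.sphere (0 : EuclideanSpace ℝ (Fin 3)) 1, Topology.IsEmbedding e := by
  intro X _ _ _ _ ⟨g, hg, hinj⟩
  letI : MetricSpace X := TopologicalSpace.metrizableSpaceMetric X
  rcases subsingleton_or_nontrivial X with hX | hX
  · obtain ⟨p, hp⟩ : (Metric.sphere (0 : EuclideanSpace ℝ (Fin 3)) 1).Nonempty :=
      NormedSpace.sphere_nonempty.2 zero_le_one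
    exact ⟨fun _ => ⟨p, hp⟩, Topology.IsEmbedding.of_subsingleton _⟩
  · obtain ⟨K⟩ := exists_cone g hg hinj
    obtain ⟨S⟩ := exists_str K
    exact embed_of_str S

end Pool.Agent.S13661
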