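import Pool.Statements.S14339
import Pool.Agent.Lib.MP_07717f_lc.Main

set_option autoImplicit false
open Pool Pool.MP_07717f_lc

namespace Pool.Agent.S14339

/-- There is a finitely generated, residually finite group whose word problem (on some finite generating set) is co-c.e., but which has no injective homomorphism into the permutations of ℕ taking every element to a computable permutation. -/
theorem result :
    ∃ (G : Type) (_ : Group G),
      Group.FG G ∧
      (∀ g : G, g ≠ 1 → ∃ H : Subgroup G, H.index ≠ 0 ∧ g ∉ H) ∧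
      (∃ (n : ℕ) (π : FreeGroup (Fin n) →* G), Function.Surjective π ∧
        REPred (fun w : List (Fin n × Bool) => π (FreeGroup.mk w) ≠ 1)) ∧
      ¬ ∃ f : G →* Equiv.Perm ℕ, Function.Injective f ∧
          ∀ g : G, Computable (⇑(f g) : ℕ → ℕ) := by
  exact ⟨Pool.Agent.Lib.MP_07717f_lc.GG, inferInstance, Pool.Agent.Lib.MP_07717f_lc.GG_fg,
    Pool.Agent.Lib.MP_07717f_lc.GG_rf,
    ⟨3, Pool.Agent.Lib.MP_07717f_lc.proj, Pool.Agent.Lib.MP_07717f_lc.proj_surj,
      Pool.Agent.Lib.MP_07717f_lc.GG_re⟩,
    Pool.Agent.Lib.MP_07717f_lc.GG_not_embed⟩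

end Pool.Agent.S14339
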