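import Pool.Statements.S14909
import Pool.Agent.Lib.MP_755262_lc.H84Final

set_option autoImplicit false
open Pool Pool.MP_755262_lc

namespace Pool.Agent.S14909

/-- There is a deterministic rule colouring each newly inserted real point from the insertion history alone, such that after every insertion each interval holding current points has a uniquely coloured point, using at most C·log₂ n + C colours after n insertions. -/
theorem result :
    ∃ A : List ℝ → ℕ, ∃ C : ℕ, ∀ x : ℕ → ℝ, Function.Injective x → ∀ n : ℕ,
      (∀ a b : ℝ, (∃ i, i < n ∧ x i ∈ Set.Icc a b) →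
        ∃ i, i < n ∧ x i ∈ Set.Icc a b ∧
          ∀ j, j < n → x j ∈ Set.Icc a b → j ≠ i →
            A ((List.range (j + 1)).map x) ≠ A ((List.range (i + 1)).map x)) ∧
      ((Finset.range n).image (fun i => A ((List.range (i + 1)).map x))).card
        ≤ C * Nat.log 2 n + C := by
  obtain ⟨A, hA⟩ := Pool.Agent.Lib.MP_755262_lc.online_log
  refine ⟨A, 5 * Pool.Agent.Lib.MP_755262_lc.cC, fun x hx n => ⟨(hA x hx n).1, ?_⟩⟩
  refine (hA x hx n).2.trans ?_
  rw [Finset.card_range]
  nlinarith [Nat.zero_le (Pool.Agent.Lib.MP_755262_lc.cC * Nat.log 2 n)]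

end Pool.Agent.S14909
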