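import Pool.Statements.S15299
import Pool.Agent.Lib.MP_bd85b6_lc.Main

set_option autoImplicit false
open Pool Pool.MP_bd85b6_lc

namespace Pool.Agent.S15299

/-- There is f(k,d) such that whenever a sum of k products of complex polynomials of degree ≤ d is zero, the products share no nonunit common factor, and no proper subsum is zero, every algebraically independent subset of the factors has size ≤ f(k,d). -/
theorem result :
    ∃ f : ℕ → ℕ → ℕ, ∀ (k d N : ℕ) (n : Fin k → ℕ)
      (Q : (i : Fin k) → Fin (n i) → MvPolynomial (Fin N) ℂ),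
      (∀ i j, (Q i j).totalDegree ≤ d) →
      (∀ g : MvPolynomial (Fin N) ℂ, (∀ i, g ∣ ∏ j, Q i j) → IsUnit g) →
      (∀ S : Finset (Fin k), S.Nonempty → S ≠ Finset.univ →
        (∑ i ∈ S, ∏ j, Q i j) ≠ 0) →
      (∑ i, ∏ j, Q i j) = 0 →
      ∀ s : Finset (Σ i : Fin k, Fin (n i)),
        AlgebraicIndependent ℂ (fun p : s => Q p.1.1 p.1.2) →
        s.card ≤ f k d := by
  exact Pool.Agent.Lib.MP_bd85b6_lc.rank_bound

end Pool.Agent.S15299
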