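import Pool.Statements.S15731
import Pool.Agent.Lib.MP_5d78b4_mp.Main

set_option autoImplicit false
open Filter Topology
open Pool Pool.MP_5d78b4_mp

namespace Pool.Agent.S15731

/-- For every coupling λ>0 and d≥1, the 1D Fibonacci spectrum has a box dimension D. The d-dimensional separable Fibonacci Hamiltonian's spectrum then has Hausdorff dimension and box dimension both equal to min(1, d·D). -/
theorem result :
    ∀ (lam : ℝ), 0 < lam → ∀ (d : ℕ), 1 ≤ d →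
    ∀ (S1 S : Set ℝ),
      S1 = {E : ℝ | ∃ T : lp (fun _ : ℤ => ℂ) 2 →L[ℂ] lp (fun _ : ℤ => ℂ) 2,
              (∀ (u : lp (fun _ : ℤ => ℂ) 2) (n : ℤ),
                (T u) n = u (n + 1) + u (n - 1)
                  + ((lam * ((⌊((n : ℝ) + 1) * ((Real.sqrt 5 - 1) / 2)⌋
                      - ⌊(n : ℝ) * ((Real.sqrt 5 - 1) / 2)⌋ : ℤ) : ℝ) : ℝ) : ℂ) * u n)
              ∧ (E : ℂ) ∈ spectrum ℂ T} →
      S = {E : ℝ | ∃ T : lp (fun _ : (Fin d → ℤ) => ℂ) 2 →L[ℂ] lp (fun _ : (Fin d → ℤ) => ℂ) 2,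
              (∀ (u : lp (fun _ : (Fin d → ℤ) => ℂ) 2) (n : Fin d → ℤ),
                (T u) n = ∑ i : Fin d,
                  (u (n + (Pi.single i (1 : ℤ) : Fin d → ℤ))
                    + u (n - (Pi.single i (1 : ℤ) : Fin d → ℤ))
                    + ((lam * ((⌊((n i : ℝ) + 1) * ((Real.sqrt 5 - 1) / 2)⌋
                        - ⌊(n i : ℝ) * ((Real.sqrt 5 - 1) / 2)⌋ : ℤ) : ℝ) : ℝ) : ℂ) * u n))
              ∧ (E : ℂ) ∈ spectrum ℂ T} →
      ∃ D : ℝ,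
        Tendsto (fun m : ℕ =>
            Real.log (({k : ℤ | ∃ x ∈ S1, (k : ℝ) ≤ 2 ^ m * x ∧ 2 ^ m * x ≤ (k : ℝ) + 1}.ncard : ℕ) : ℝ)
              / ((m : ℝ) * Real.log 2)) atTop (𝓝 D)
        ∧ dimH S = ENNReal.ofReal (min 1 ((d : ℝ) * D))
        ∧ Tendsto (fun m : ℕ =>
            Real.log (({k : ℤ | ∃ x ∈ S, (k : ℝ) ≤ 2 ^ m * x ∧ 2 ^ m * x ≤ (k : ℝ) + 1}.ncard : ℕ) : ℝ)
              / ((m : ℝ) * Real.log 2)) atTop (𝓝 (min 1 ((d : ℝ) * D))) := by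
  intro lam hl d hd S1 S h1 h2
  subst h1 h2
  exact Pool.Agent.Lib.MP_5d78b4_mp.main_formula hl hd

end Pool.Agent.S15731
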