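import Pool.Statements.S15810
import Pool.Agent.Lib.MP_e310f3_mp.Gap.Main
import Pool.Agent.Lib.MP_e310f3_mp.Gap.Fin

set_option autoImplicit false
open Pool Pool.MP_e310f3_mp

namespace Pool.Agent.S15810

/-- The negation of the preceding statement: For any N≥2 positive masses in dimension d≥2, energy E>0 and collision-free centered incoming shape, the outgoing shapes of global collision-free solutions hyperbolic in both directions form an open dense subset of the centered unit sphere. -/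
theorem result :
    ¬ (∀ (d N : ℕ), 2 ≤ d → 2 ≤ N →
  ∀ (m : Fin N → ℝ), (∀ i, 0 < m i) →
  ∀ (E : ℝ), 0 < E →
  ∀ (sm : Fin N → EuclideanSpace ℝ (Fin d)),
    ‖sm‖ = 1 → ∑ i, m i • sm i = 0 → (∀ i j, i ≠ j → sm i ≠ sm j) →
  ∀ (A : Set (Fin N → EuclideanSpace ℝ (Fin d))),
    A = {sp : Fin N → EuclideanSpace ℝ (Fin d) |
      ∃ q v : ℝ → (Fin N → EuclideanSpace ℝ (Fin d)),
        (∀ t, HasDerivAt q (v t) t) ∧
        (∀ t, HasDerivAt v
            (fun i => ∑ j, (m j / ‖q t j - q t i‖ ^ 3) • (q t j - q t i)) t) ∧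
        (∀ t, ∀ i j, i ≠ j → q t i ≠ q t j) ∧
        (∀ t, ∑ i, m i • q t i = 0) ∧
        (∀ t, (1 / 2 : ℝ) * ∑ i, m i * ‖v t i‖ ^ 2
            - ∑ i, ∑ j ∈ Finset.univ.filter (fun j => i < j),
                m i * m j / ‖q t i - q t j‖ = E) ∧
        (∃ a : Fin N → EuclideanSpace ℝ (Fin d), (∀ i j, i ≠ j → a i ≠ a j) ∧
            Filter.Tendsto (fun t : ℝ => t⁻¹ • q t) Filter.atBot (nhds a)) ∧
        Filter.Tendsto (fun t : ℝ => ‖q t‖⁻¹ • q t) Filter.atBot (nhds sm) ∧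
        (∃ a : Fin N → EuclideanSpace ℝ (Fin d), (∀ i j, i ≠ j → a i ≠ a j) ∧
            Filter.Tendsto (fun t : ℝ => t⁻¹ • q t) Filter.atTop (nhds a)) ∧
        Filter.Tendsto (fun t : ℝ => ‖q t‖⁻¹ • q t) Filter.atTop (nhds sp)} →
    (∀ sp ∈ A, ∃ ε > 0, ∀ x : Fin N → EuclideanSpace ℝ (Fin d),
        ‖x‖ = 1 → ∑ i, m i • x i = 0 → dist x sp < ε → x ∈ A) ∧
    (∀ x : Fin N → EuclideanSpace ℝ (Fin d), ‖x‖ = 1 → ∑ i, m i • x i = 0 →
        ∀ ε > 0, ∃ sp ∈ A, dist x sp < ε)) := by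
  obtain ⟨κ, b, δ, h1, h2, h3, h4, h5⟩ := Pool.Agent.Lib.MP_e310f3_mp.Gap.no_orbit
  exact Pool.Agent.Lib.MP_e310f3_mp.Gap.fin h1 h2 h3 h4 h5

end Pool.Agent.S15810
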