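import Pool.Statements.S16627
import Pool.Agent.Lib.MP_3bda03_nt.B.Small
import Pool.Agent.Lib.MP_3bda03_nt.P.Final
import Pool.Agent.Lib.MP_3bda03_nt.T.Main

set_option autoImplicit false
open Pool Pool.MP_3bda03_nt

namespace Pool.Agent.S16627

/-- For every n ≥ 1 there is a real n×n matrix A with ∣det A∣ = 1 such that the analytic continuation of the sum over nonzero k in ℤⁿ of ∣Ak∣^(-2s) has no zeros at real s > 0, apart from the pole at n/2. -/
theorem result :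
    ∀ n : ℕ, 1 ≤ n →
      ∃ A : Matrix (Fin n) (Fin n) ℝ, |A.det| = 1 ∧
        ∃ F : ℂ → ℂ,
          DifferentiableOn ℂ F {((n : ℂ) / 2)}ᶜ ∧
          (∀ s : ℂ, (n : ℝ) / 2 < s.re →
            F s = ∑' k : {k : Fin n → ℤ // k ≠ 0},
              (((∑ i, (∑ j, A i j * ((k.1 j : ℤ) : ℝ)) ^ 2 : ℝ) : ℂ)) ^ (-s)) ∧
          (∀ x : ℝ, 0 < x → x ≠ (n : ℝ) / 2 → F (x : ℂ) ≠ 0) := by
  intro n hn
  rcases le_or_gt n 96 with h | h
  · exact Pool.Agent.Eps.B.goal_small hn h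
  · exact Pool.Agent.Eps.T.goal_of_sieve h (Pool.Agent.Eps.P.sieve h)

end Pool.Agent.S16627
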