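import Pool.Statements.S19223
import Pool.Agent.Lib.MP_2842de_pr.Final

set_option autoImplicit false
open Pool Pool.MP_2842de_pr

namespace Pool.Agent.S19223

/-- For open ASEP on N sites with fixed rates on the coexistence line a = b > 1, the total-variation mixing time t_mix(1/4) is between c·N² and C·N² for all large N, and the chain does not exhibit cutoff. -/
theorem result :
  ∀ (q α β γ δ : ℝ), 0 ≤ q → q < 1 → 0 < α → 0 < β → 0 ≤ γ → 0 ≤ δ →
  (1 - q - α + γ + Real.sqrt ((1 - q - α + γ) ^ 2 + 4 * α * γ)) / (2 * α)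
      = (1 - q - β + δ + Real.sqrt ((1 - q - β + δ) ^ 2 + 4 * β * δ)) / (2 * β) →
  1 < (1 - q - α + γ + Real.sqrt ((1 - q - α + γ) ^ 2 + 4 * α * γ)) / (2 * α) →
  ∀ (R : (N : ℕ) → (Fin N → Bool) → (Fin N → Bool) → ℝ),
  (∀ (N : ℕ) (x y : Fin N → Bool), R N x y =
      (∑ i : Fin N, ∑ j : Fin N,
        if j.val = i.val + 1 ∧ y = Function.update (Function.update x i (x j)) j (x i) then
          (if x i = true ∧ x j = false then (1 : ℝ)
           else if x i = false ∧ x j = true then q else 0)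
        else 0)
      + (∑ i : Fin N, if i.val = 0 then
          ((if x i = false ∧ y = Function.update x i true then α else 0)
            + (if x i = true ∧ y = Function.update x i false then γ else 0)) else 0)
      + (∑ i : Fin N, if i.val + 1 = N then
          ((if x i = false ∧ y = Function.update x i true then δ else 0)
            + (if x i = true ∧ y = Function.update x i false then β else 0)) else 0)) →
  ∀ (P : (N : ℕ) → ℝ → (Fin N → Bool) → (Fin N → Bool) → ℝ),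
  (∀ (N : ℕ) (t : ℝ) (x y : Fin N → Bool), P N t x y =
      ∑' k : ℕ, Real.exp (-t) * t ^ k / (k.factorial : ℝ) *
        (((1 : Matrix (Fin N → Bool) (Fin N → Bool) ℝ)
          + Matrix.of (fun x' y' : Fin N → Bool =>
              R N x' y' - if x' = y' then ∑ z : Fin N → Bool, R N x' z else 0)) ^ k) x y) →
  ∀ (π : (N : ℕ) → (Fin N → Bool) → ℝ),
  (∀ N : ℕ, (∀ x, 0 ≤ π N x) ∧ (∑ x, π N x) = 1 ∧
      ∀ y, (∑ x, π N x * (R N x y - if x = y then ∑ z : Fin N → Bool, R N x z else 0)) = 0) →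
  ∀ (tmix : ℕ → ℝ → ℝ),
  (∀ (N : ℕ) (ε : ℝ), tmix N ε =
      sInf {t : ℝ | 0 ≤ t ∧ ∀ x : Fin N → Bool, (∑ y, |P N t x y - π N y|) / 2 ≤ ε}) →
  (∃ c C : ℝ, 0 < c ∧ 0 < C ∧ ∀ᶠ N : ℕ in Filter.atTop,
      c * (N : ℝ) ^ 2 ≤ tmix N (1 / 4) ∧ tmix N (1 / 4) ≤ C * (N : ℝ) ^ 2) ∧
  ¬ (∀ ε : ℝ, 0 < ε → ε < 1 →
      Filter.Tendsto (fun N : ℕ => tmix N ε / tmix N (1 - ε)) Filter.atTop (nhds 1)) := by
  intro q α β γ δ hq hq1 hα hβ hγ hδ he h1 R hR P hP π hπ tmix htm
  obtain ⟨ρ, H⟩ := Pool.Agent.Lib.MP_2842de_pr.coex_of hq hq1 hα hβ hγ hδ he h1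
  let L : (N : ℕ) → Matrix (Fin N → Bool) (Fin N → Bool) ℝ := fun N =>
    Matrix.of (fun x' y' : Fin N → Bool =>
      R N x' y' - if x' = y' then ∑ z : Fin N → Bool, R N x' z else 0)
  have hPm : ∀ (N : ℕ) (t : ℝ) (x y : Fin N → Bool),
      P N t x y = Pool.Agent.Lib.MP_2842de_pr.Pm (L N) t x y := by
    intro N t x y
    rw [hP]
    have h := Pool.Agent.Lib.MP_2842de_pr.hasSum_Pm (L N) one_ne_zero t x y
    simp only [one_mul, inv_one, one_smul, Pool.Agent.Lib.MP_2842de_pr.poi] at h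
    exact h.tsum_eq
  have hG : ∀ n : ℕ, Pool.Agent.Lib.MP_2842de_pr.IsGen q α β γ δ (L (n + 1)) := fun n =>
    Pool.Agent.Lib.MP_2842de_pr.isGen_of (R (n + 1)) (hR (n + 1))
  refine Pool.Agent.Lib.MP_2842de_pr.mixing_of_contr (S := fun N => Fin N → Bool) L π tmix
    (fun N => (hπ N).1) (fun N => (hπ N).2.1) (fun N ε => ?_) ?_ (fun τ hτ => ?_) ?_
  · rw [htm]; simp only [hPm]
  · refine Pool.Agent.Lib.MP_2842de_pr.eventually_of_succ (Filter.Eventually.of_forall fun n => ?_)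
    intro t ht
    exact (hG n).base H (hπ (n + 1)).2.2 t ht
  · obtain ⟨ε, hε, hev⟩ := Pool.Agent.Lib.MP_2842de_pr.upper_cont H hτ
    refine ⟨ε, hε, Pool.Agent.Lib.MP_2842de_pr.eventually_of_succ ?_⟩
    filter_upwards [hev] with n hn
    have := hn (L (n + 1)) (hG n)
    simpa only [Nat.cast_add, Nat.cast_one] using this
  · obtain ⟨τ, ε, hτ, hε, hev⟩ := Pool.Agent.Lib.MP_2842de_pr.lower_cont H
    refine ⟨τ, ε, hτ, hε, Pool.Agent.Lib.MP_2842de_pr.eventually_of_succ ?_⟩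
    filter_upwards [hev] with n hn
    have := hn (L (n + 1)) (hG n)
    simpa only [Nat.cast_add, Nat.cast_one] using this

end Pool.Agent.S19223
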