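import Pool.Statements.S19363
import Pool.Agent.Lib.MP_640444_pr.Final

set_option autoImplicit false
open MeasureTheory
open Pool Pool.MP_640444_pr

namespace Pool.Agent.S19363

/-- For every s in R^3 with ∣s1∣+∣s2∣+∣s3∣<1 there is exactly one probability measure on dimer configurations of Z^3 that is Gibbs (uniform given outside), invariant and ergodic under even translations, and has mean current s. -/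
theorem result :
  ∀ s : Fin 3 → ℝ, (∑ i, |s i|) < 1 →
    ∃! μ : Measure ((Fin 3 → ℤ) → (Fin 3 → ℤ)),
      IsProbabilityMeasure μ ∧
      (∀ᵐ σ ∂μ, ∀ x : Fin 3 → ℤ, (∑ i, |σ x i - x i|) = 1 ∧ σ (σ x) = x) ∧
      (∀ (Λ : Finset (Fin 3 → ℤ)) (τ₁ τ₂ : (Fin 3 → ℤ) → (Fin 3 → ℤ)),
        (∀ x ∈ Λ, (∑ i, |τ₁ x i - x i|) = 1 ∧ (τ₁ x ∈ Λ → τ₁ (τ₁ x) = x)) →
        (∀ x ∈ Λ, (∑ i, |τ₂ x i - x i|) = 1 ∧ (τ₂ x ∈ Λ → τ₂ (τ₂ x) = x)) →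
        (∀ x ∈ Λ, (τ₁ x ∉ Λ ∨ τ₂ x ∉ Λ) → τ₁ x = τ₂ x) →
        ∀ A : Set ((Fin 3 → ℤ) → (Fin 3 → ℤ)), MeasurableSet A →
          (∀ σ σ' : (Fin 3 → ℤ) → (Fin 3 → ℤ),
            (∀ y : Fin 3 → ℤ, y ∉ Λ → σ y = σ' y) → σ ∈ A → σ' ∈ A) →
          μ ({σ : (Fin 3 → ℤ) → (Fin 3 → ℤ) | ∀ x ∈ Λ, σ x = τ₁ x} ∩ A)
            = μ ({σ : (Fin 3 → ℤ) → (Fin 3 → ℤ) | ∀ x ∈ Λ, σ x = τ₂ x} ∩ A)) ∧
      (∀ v : Fin 3 → ℤ, Even (∑ i, v i) →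
        Measure.map
          (fun (σ : (Fin 3 → ℤ) → (Fin 3 → ℤ)) (x : Fin 3 → ℤ) => σ (x - v) + v) μ = μ) ∧
      (∀ A : Set ((Fin 3 → ℤ) → (Fin 3 → ℤ)), MeasurableSet A →
        (∀ v : Fin 3 → ℤ, Even (∑ i, v i) →
          (fun (σ : (Fin 3 → ℤ) → (Fin 3 → ℤ)) (x : Fin 3 → ℤ) => σ (x - v) + v) ⁻¹' A = A) →
        μ A = 0 ∨ μ A = 1) ∧
      (∀ i : Fin 3, s i =
        (μ {σ : (Fin 3 → ℤ) → (Fin 3 → ℤ) | σ 0 = (Pi.single i (1 : ℤ) : Fin 3 → ℤ)}).toReal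
        - (μ {σ : (Fin 3 → ℤ) → (Fin 3 → ℤ) | σ 0 = -(Pi.single i (1 : ℤ) : Fin 3 → ℤ)}).toReal) := by
  intro s hs
  obtain ⟨μ, h⟩ := Pool.Agent.Lib.MP_640444_pr.exist_all s hs
  refine ⟨μ, ⟨h.prob, h.tiling, h.gibbs, h.inv, h.erg, h.cur⟩, fun ν hν => ?_⟩
  exact Pool.Agent.Lib.MP_640444_pr.uniq_all s ν μ hs
    ⟨hν.1, hν.2.1, hν.2.2.1, hν.2.2.2.1, hν.2.2.2.2.1, hν.2.2.2.2.2⟩ h

end Pool.Agent.S19363
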